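import Pool.Agent.R908.AbAnisoDefs
import Pool.Agent.R908.AbDefs
import Pool.Agent.R908.BalDefs

/-!
# Rings acting on an abelian variety: definitions
-/

open CategoryTheory AlgebraicGeometry

universe u v

namespace Pool.Agent.E8helper40.GD

open Pool.Agent.H914 Pool.Agent.H914.VarClass Pool.Agent.H914.VarClass.Obj
  Pool.Agent.H914.WeilCohomology Pool.Agent.R908

/-- The ring endomorphism `c` of `O` induces the complex conjugation: `φ (c a)` is the complex
conjugate of `φ a`, for all homomorphisms `φ` from `O` to the complex numbers. For an order `O` in a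
product of number fields such a `c` exists if and only if the fields are CM fields or totally real
fields and `O` is stable under their complex conjugation. -/
def IsComplexConjugation {O : Type*} [CommRing O] (c : O →+* O) : Prop :=
  ∀ (φ : O →+* ℂ) (a : O), φ (c a) = starRingEnd ℂ (φ a)

/-- The commutative ring `O` acts on the subspace `N` of the algebra `B` by the homomorphisms `e a`,
such that the adjoint of `e a` for the form `b` is `e (c a)`, and the operators `p l` are, on `N`,
linear combinations of the operators `e a`. -/
structure IsCentral {K B : Type*} [Field K] [Ring B] [Algebra K B] (N : Submodule K B)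
    (b : B → B → K) {Λ : Type} (p : Λ → Module.End K B) {O : Type} [CommRing O] (c : O →+* O)
    (e : O → (B →ₐ[K] B)) : Prop where
  one : ∀ x ∈ N, e 1 x = x
  add : ∀ a a', ∀ x ∈ N, e (a + a') x = e a x + e a' x
  mul : ∀ a a', ∀ x ∈ N, e (a * a') x = e a (e a' x)
  adjoint : ∀ a, ∀ x ∈ N, ∀ y ∈ N, b (e a x) y = b x (e (c a) y)
  blocks : ∀ l, ∃ f ∈ Submodule.span K (Set.range fun a => (e a).toLinearMap),
    ∀ x ∈ N, p l x = f x

variable {k : Type u} [Field k] {𝒱 : VarClass k} {ops : CycleOps 𝒱}

/-- The commutative ring `O` acts on `H^1(A)` by the pull-backs by the endomorphisms `act a` of `A`,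
such that the adjoint of `act a` for the form `x, y ↦ tr (x D ^ (dim A - 1) y)` is `act (c a)`, and
the projectors `p l` to the blocks of `H^1(A)` are `K`-linear combinations of these operators. For
instance, `O` is an order in the centre of the endomorphism algebra of an abelian variety `A`,
stable under the Rosati involution `c`, and the blocks correspond to the places above `ℓ` of the
centre. -/
def IsCentralAction (W : WeilCohomology.{u, v} ops) {A : 𝒱.Obj} (D : A.Cycles) {Λ : Type}
    (p : Λ → Module.End W.K (W.H A)) {O : Type} [CommRing O] (c : O →+* O)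
    (act : O → (A ⟶ A)) : Prop :=
  IsCentral (W.gr A 1) (trForm (W.tr A) (W.cl A D) (A.dim - 1)) p c fun a => W.map (act a)

/-- The image of the cycle `z` on `V` under the correspondence `a` from `V` to `Z`. -/
noncomputable def corrCyc (ops : CycleOps 𝒱) {V Z : 𝒱.Obj} (a : (V.prod Z).Cycles)
    (z : V.Cycles) : Z.Cycles :=
  ops.push (snd V Z) (ops.mul a (ops.pull (fst V Z) z))

/-- The classes of the cycles of codimension `j` on `V` factor through `Z`: there are algebraic
correspondences `a` from `V` to `Z` and `b` from `Z` to `V` with `b ∘ a` the identity on the classes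
of the cycles of codimension `j` on `V`. For instance, `V = Z`, or the motive of `V` is a direct
factor of a twist of the motive of `Z`. -/
def IsFactorIn (W : WeilCohomology.{u, v} ops) (V Z : 𝒱.Obj) (j : ℕ) : Prop :=
  ∃ (i r s : ℕ) (a : (V.prod Z).Cycles) (b : (Z.prod V).Cycles),
    (V.prod Z).IsCyc r a ∧ (Z.prod V).IsCyc s b ∧ j + r = i + V.dim ∧ i + s = j + Z.dim ∧
      ∀ z, V.IsCyc j z → W.cl V (corrCyc ops b (corrCyc ops a z)) = W.cl V z

end Pool.Agent.E8helper40.GD
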