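import Mathlib
import Pool.Agent.E8helper40.GD.Defs

/-!
# Products of ring homomorphisms to a field, and complex conjugation
-/

open Polynomial

namespace Pool.Agent.E8helper40.GD

section Distinct

variable {O : Type*} [CommRing O] {F : Type*} [Field F] [CharZero F]

/-- The values of two families of homomorphisms agree if the products do. -/
lemma map_eq_of_prod (s t : Multiset (O →+* F))
    (h : ∀ a, (s.map fun φ => φ a).prod = (t.map fun φ => φ a).prod) (a : O) :
    (s.map fun φ => φ a) = (t.map fun φ => φ a) := by
  have key : ∀ u : Multiset (O →+* F), ∀ n : ℕ,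
      ((u.map fun φ : O →+* F => X - C (-φ a)).prod).eval (n : F) =
        (u.map fun φ : O →+* F => φ (n + a)).prod := by
    intro u n
    rw [Polynomial.eval_multiset_prod, Multiset.map_map]
    congr 1
    refine Multiset.map_congr rfl fun φ _ => ?_
    rw [Function.comp_apply, eval_sub, eval_X, eval_C, map_add, map_natCast, sub_neg_eq_add]
  have h1 : (s.map fun φ : O →+* F => X - C (-φ a)).prod =
      (t.map fun φ : O →+* F => X - C (-φ a)).prod := by
    refine Polynomial.eq_of_infinite_eval_eq _ _ ?_
    refine Set.Infinite.mono ?_ (Set.infinite_range_of_injective (Nat.cast_injective (R := F)))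
    rintro _ ⟨n, rfl⟩
    change _ = _
    rw [key, key, h]
  have h2 : ∀ u : Multiset (O →+* F), (u.map fun φ : O →+* F => X - C (-φ a)).prod.roots =
      u.map fun φ : O →+* F => -φ a := by
    intro u
    have h3 : (u.map fun φ : O →+* F => X - C (-φ a)) =
        (u.map fun φ : O →+* F => -φ a).map fun c => X - C c := by
      rw [Multiset.map_map]
      rfl
    rw [h3, Polynomial.roots_multiset_prod_X_sub_C]
  have h4 := congrArg Polynomial.roots h1
  rw [h2, h2] at h4
  have h5 := congrArg (Multiset.map fun c => -c) h4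
  rw [Multiset.map_map, Multiset.map_map] at h5
  simpa using h5

/-- Families of homomorphisms with the same products are permutations of each other. -/
lemma multiset_eq_of_prod (s t : Multiset (O →+* F))
    (h : ∀ a, (s.map fun φ => φ a).prod = (t.map fun φ => φ a).prod) : s = t := by
  classical
  have h1 : ∀ a, (s.map fun φ => φ a).sum = (t.map fun φ => φ a).sum := fun a => by
    rw [map_eq_of_prod s t h a]
  have hinj : Function.Injective (fun φ : O →+* F => (φ : O →* F)) := by
    intro φ ψ hφ
    exact RingHom.ext fun a => DFunLike.congr_fun hφ a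
  have hli : LinearIndependent F (fun φ : O →+* F => (φ : O → F)) :=
    (linearIndependent_monoidHom O F).comp _ hinj
  have key : ∀ u : Multiset (O →+* F), Finsupp.linearCombination F (fun φ : O →+* F => (φ : O → F))
      ((Multiset.toFinsupp u).mapRange (Nat.cast : ℕ → F) Nat.cast_zero) =
      fun a => (u.map fun φ => φ a).sum := by
    intro u
    funext a
    rw [Finsupp.linearCombination_apply, Finsupp.sum_mapRange_index (by simp), Finsupp.sum,
      Finset.sum_apply, Multiset.toFinsupp_support, Finset.sum_multiset_map_count]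
    refine Finset.sum_congr rfl fun φ _ => ?_
    rw [Multiset.toFinsupp_apply, Pi.smul_apply, smul_eq_mul, nsmul_eq_mul]
  have h2 : (Multiset.toFinsupp s).mapRange (Nat.cast : ℕ → F) Nat.cast_zero =
      (Multiset.toFinsupp t).mapRange (Nat.cast : ℕ → F) Nat.cast_zero := by
    apply hli
    rw [key, key]
    funext a
    exact h1 a
  have h3 : Multiset.toFinsupp s = Multiset.toFinsupp t :=
    Finsupp.mapRange_injective _ Nat.cast_zero Nat.cast_injective h2
  exact Multiset.toFinsupp.injective h3

end Distinct

section Conj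

variable {O : Type*} [CommRing O] {L : Type*} [Field L] [CharZero L] {E : Type*} [Field E]
  [Algebra E L] {c : O →+* O}

/-- The character is a product of ring homomorphisms. -/
def IsProdHom (χ : O →* E) : Prop :=
  ∃ s : Multiset (O →+* E), ∀ a, χ a = (s.map fun φ => φ a).prod

lemma IsComplexConjugation.hom (hc : IsComplexConjugation c) (ι : E →+* ℂ) {χ : O →* E}
    (hχ : IsProdHom χ) (a : O) : ι (χ (c a)) = starRingEnd ℂ (ι (χ a)) := by
  obtain ⟨s, hs⟩ := hχ
  rw [hs, hs, map_multiset_prod, map_multiset_prod, map_multiset_prod, Multiset.map_map,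
    Multiset.map_map, Multiset.map_map]
  congr 1
  refine Multiset.map_congr rfl fun φ _ => ?_
  exact hc (ι.comp φ) a

lemma IsComplexConjugation.twice (hc : IsComplexConjugation c) (ι : E →+* ℂ) {χ : O →* E}
    (hχ : IsProdHom χ) (a : O) : χ (c (c a)) = χ a := by
  apply ι.injective
  rw [hc.hom ι hχ, hc.hom ι hχ, Complex.conj_conj]

/-- The conjugate character. -/
def conjChar (c : O →+* O) (χ : O →* E) : O →* E := χ.comp (c : O →* O)

@[simp] lemma conjChar_apply (χ : O →* E) (a : O) : conjChar c χ a = χ (c a) := rfl

omit [CharZero L] in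
/-- **Rational combinations of characters are stable under conjugation.** -/
theorem conj_support (hc : IsComplexConjugation c) (ι : E →+* ℂ) (B : O → ℚ)
    (g : (O →* E) →₀ L) (hg : ∀ χ ∈ g.support, IsProdHom χ)
    (hB : ∀ a, (B a : L) = g.sum fun χ x => algebraMap E L (χ a) * x) {χ : O →* E}
    (hχ : g χ ≠ 0) : g (conjChar c χ) ≠ 0 := by
  classical
  -- the coefficients are in `E`
  obtain ⟨s, hs⟩ := LinearMap.exists_leftInverse_of_injective (Algebra.linearMap E L)
    (LinearMap.ker_eq_bot.2 (algebraMap E L).injective)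
  have hs1 : ∀ x : E, s (algebraMap E L x) = x := fun x => congrArg (fun f => f x) hs
  have hrat : ∀ q : ℚ, s (q : L) = (q : E) := by
    intro q
    have h1 : (q : L) = algebraMap E L (q : E) := (map_ratCast _ q).symm
    rw [h1, hs1]
  set g0 : (O →* E) →₀ E := g.mapRange s (map_zero s) with hg0
  have hB0 : ∀ a, (B a : E) = g0.sum fun χ x => χ a * x := by
    intro a
    have h1 := congrArg s (hB a)
    rw [hrat, Finsupp.sum, map_sum] at h1
    rw [h1, hg0, Finsupp.sum_mapRange_index (by simp), Finsupp.sum]
    refine Finset.sum_congr rfl fun χ _ => ?_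
    rw [← Algebra.smul_def, map_smul, smul_eq_mul]
  have hgg : ∀ χ, algebraMap E L (g0 χ) = g χ := by
    set e : (O →* E) → (O →* L) := fun χ => ((algebraMap E L : E →+* L) : E →* L).comp χ with he
    have hinj : Function.Injective e := by
      intro χ χ' h
      refine MonoidHom.ext fun a => (algebraMap E L).injective ?_
      exact DFunLike.congr_fun h a
    have hli : LinearIndependent L (fun χ : O →* E => (e χ : O → L)) :=
      (linearIndependent_monoidHom O L).comp _ hinj
    have h1 : Finsupp.linearCombination L (fun χ : O →* E => (e χ : O → L)) g =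
        Finsupp.linearCombination L (fun χ : O →* E => (e χ : O → L))
          (g0.mapRange (algebraMap E L) (map_zero _)) := by
      funext a
      rw [Finsupp.linearCombination_apply, Finsupp.linearCombination_apply,
        Finsupp.sum_mapRange_index (by simp), Finsupp.sum, Finsupp.sum, Finset.sum_apply,
        Finset.sum_apply]
      have h2 := hB a
      have h3 := congrArg (algebraMap E L) (hB0 a)
      rw [map_ratCast, h2, Finsupp.sum, Finsupp.sum, map_sum] at h3
      have e1 : ∀ χ : O →* E, (e χ : O → L) a = algebraMap E L (χ a) := fun χ => rfl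
      simp only [Pi.smul_apply, smul_eq_mul, e1]
      rw [Finset.sum_congr rfl fun χ _ => mul_comm (g χ) _, h3]
      refine Finset.sum_congr rfl fun χ _ => ?_
      rw [map_mul, mul_comm]
    have h2 := hli h1
    intro χ
    have h3 := DFunLike.congr_fun h2 χ
    rw [Finsupp.mapRange_apply] at h3
    exact h3.symm
  have hg0ne : ∀ χ, g0 χ ≠ 0 ↔ g χ ≠ 0 := by
    intro χ
    rw [← hgg, Ne, Ne, map_eq_zero_iff _ (algebraMap E L).injective]
  have hsupp : ∀ χ ∈ g0.support, IsProdHom χ := fun χ hχ =>
    hg χ (Finsupp.mem_support_iff.2 ((hg0ne χ).1 (Finsupp.mem_support_iff.1 hχ)))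
  -- complex numbers
  set e : (O →* E) → (O →* ℂ) := fun χ => (ι : E →* ℂ).comp χ with he
  have hinj : Function.Injective e := by
    intro χ χ' h
    refine MonoidHom.ext fun a => ι.injective ?_
    exact DFunLike.congr_fun h a
  have hli : LinearIndependent ℂ (fun χ : O →* E => (e χ : O → ℂ)) :=
    (linearIndependent_monoidHom O ℂ).comp _ hinj
  -- the conjugate combination
  have hcc : ∀ χ ∈ g0.support, ∀ χ' ∈ g0.support, conjChar c χ = conjChar c χ' → χ = χ' := by
    intro χ hχ χ' hχ' h
    refine MonoidHom.ext fun a => ?_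
    rw [← hc.twice ι (hsupp χ hχ) a, ← hc.twice ι (hsupp χ' hχ') a]
    exact DFunLike.congr_fun h (c a)
  set G : (O →* E) →₀ ℂ := g0.mapRange ι (map_zero ι) with hG
  set G' : (O →* E) →₀ ℂ := ∑ χ ∈ g0.support, Finsupp.single (conjChar c χ)
    (starRingEnd ℂ (ι (g0 χ))) with hG'
  have h1 : ∀ a, Finsupp.linearCombination ℂ (fun χ : O →* E => (e χ : O → ℂ)) G a = (B a : ℂ) := by
    intro a
    rw [Finsupp.linearCombination_apply, hG, Finsupp.sum_mapRange_index (by simp), Finsupp.sum,
      Finset.sum_apply, ← map_ratCast ι, hB0, Finsupp.sum, map_sum]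
    refine Finset.sum_congr rfl fun χ _ => ?_
    rw [Pi.smul_apply, smul_eq_mul, map_mul, mul_comm]
    rfl
  have h2 : ∀ a, Finsupp.linearCombination ℂ (fun χ : O →* E => (e χ : O → ℂ)) G' a =
      (B a : ℂ) := by
    intro a
    have h3 : (B a : ℂ) = starRingEnd ℂ (B a : ℂ) := by
      rw [map_ratCast]
    rw [h3, ← map_ratCast ι, hB0, Finsupp.sum, map_sum, map_sum, map_sum, Finset.sum_apply]
    refine Finset.sum_congr rfl fun χ hχ => ?_
    rw [Finsupp.linearCombination_single, Pi.smul_apply, smul_eq_mul, map_mul, map_mul,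
      ← hc.hom ι (hsupp χ hχ), mul_comm]
    rfl
  have h3 : G = G' := hli (by
    funext a
    rw [h1, h2])
  have h4 : G' (conjChar c χ) = starRingEnd ℂ (ι (g0 χ)) := by
    have hmem : χ ∈ g0.support := Finsupp.mem_support_iff.2 ((hg0ne χ).2 hχ)
    rw [hG', Finsupp.finsetSum_apply, Finset.sum_eq_single χ]
    · rw [Finsupp.single_eq_same]
    · intro χ' hχ' hne
      rw [Finsupp.single_eq_of_ne]
      intro h
      exact hne (hcc χ' hχ' χ hmem h.symm)
    · intro h
      exact absurd hmem h
  have h5 : G' (conjChar c χ) ≠ 0 := by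
    rw [h4]
    intro h
    have h6 : ι (g0 χ) = 0 := by simpa using h
    rw [map_eq_zero_iff _ ι.injective] at h6
    exact (hg0ne χ).2 hχ h6
  rw [← h3, hG, Finsupp.mapRange_apply] at h5
  rw [← hg0ne]
  intro h
  exact h5 (by rw [h, map_zero])

end Conj

end Pool.Agent.E8helper40.GD
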