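import Mathlib

/-!
# Simultaneous diagonalisation of the action of a reduced integral ring
-/

open Polynomial TensorProduct

namespace Pool.Agent.E8helper40.GD

attribute [local instance] Algebra.TensorProduct.rightAlgebra in
/-- An element of a reduced commutative ring which is integral over `ℤ` is a root of an integral
polynomial which is squarefree over `ℚ`. -/
lemma exists_squarefree {O : Type*} [CommRing O] [IsReduced O] [Algebra.IsIntegral ℤ O] (a : O) :
    ∃ P : ℤ[X], Squarefree (P.map (algebraMap ℤ ℚ)) ∧ aeval a P = 0 := by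
  have hloc : IsLocalization (Algebra.algebraMapSubmonoid O (nonZeroDivisors ℤ)) (ℚ ⊗[ℤ] O) :=
    inferInstance
  have hred : IsReduced (ℚ ⊗[ℤ] O) :=
    isReduced_localizationPreserves (Algebra.algebraMapSubmonoid O (nonZeroDivisors ℤ)) _
      inferInstance
  have haev : ∀ P : ℤ[X], aeval ((1 : ℚ) ⊗ₜ[ℤ] a) (P.map (algebraMap ℤ ℚ)) =
      (1 : ℚ) ⊗ₜ[ℤ] (aeval a P) := by
    intro P
    rw [aeval_map_algebraMap]
    have h1 := Polynomial.aeval_algHom_apply
      (Algebra.TensorProduct.includeRight : O →ₐ[ℤ] ℚ ⊗[ℤ] O) a P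
    exact h1
  obtain ⟨f, hf, hfa⟩ := Algebra.IsIntegral.isIntegral (R := ℤ) a
  have hint : IsIntegral ℚ ((1 : ℚ) ⊗ₜ[ℤ] a) := by
    refine ⟨f.map (algebraMap ℤ ℚ), hf.map _, ?_⟩
    have h1 := haev f
    rw [aeval_def] at h1
    rw [h1]
    have h2 : aeval a f = 0 := hfa
    rw [h2, tmul_zero]
  have hm0 := minpoly.ne_zero hint
  have hsq : Squarefree (minpoly ℚ ((1 : ℚ) ⊗ₜ[ℤ] a)) :=
    (minpoly.isRadical (A := ℚ) ((1 : ℚ) ⊗ₜ[ℤ] a)).squarefree hm0
  obtain ⟨b, hb', hb⟩ := IsLocalization.integerNormalization_spec (nonZeroDivisors ℤ)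
    (minpoly ℚ ((1 : ℚ) ⊗ₜ[ℤ] a))
  set m' := IsLocalization.integerNormalization (nonZeroDivisors ℤ)
    (minpoly ℚ ((1 : ℚ) ⊗ₜ[ℤ] a)) with hm'
  have hb1 : m'.map (algebraMap ℤ ℚ) = C (b : ℚ) * minpoly ℚ ((1 : ℚ) ⊗ₜ[ℤ] a) := by
    rw [hb, zsmul_eq_mul, C_eq_intCast]
  have h1 : (1 : ℚ) ⊗ₜ[ℤ] (aeval a m') = 0 := by
    rw [← haev, hb1, map_mul, minpoly.aeval, mul_zero]
  have h2 : algebraMap O (ℚ ⊗[ℤ] O) (aeval a m') = 0 := h1
  rw [IsLocalization.map_eq_zero_iff (Algebra.algebraMapSubmonoid O (nonZeroDivisors ℤ))] at h2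
  obtain ⟨⟨_, n, hn, rfl⟩, h3⟩ := h2
  have hn0 : n ≠ 0 := nonZeroDivisors.ne_zero hn
  have hb0 : b ≠ 0 := nonZeroDivisors.ne_zero hb'
  refine ⟨C n * m', ?_, ?_⟩
  · have h4 : (C n * m').map (algebraMap ℤ ℚ) = C ((n * b : ℤ) : ℚ) *
        minpoly ℚ ((1 : ℚ) ⊗ₜ[ℤ] a) := by
      rw [Polynomial.map_mul, hb1, map_C, ← mul_assoc, ← C_mul]
      push_cast
      rfl
    rw [h4]
    have hu : IsUnit (C ((n * b : ℤ) : ℚ)) := by
      rw [Polynomial.isUnit_C, isUnit_iff_ne_zero]
      exact_mod_cast mul_ne_zero hn0 hb0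
    exact (Squarefree.squarefree_of_dvd (associated_unit_mul_left _ _ hu).dvd hsq)
  · rw [map_mul, aeval_C]
    exact h3

section Joint

variable {O : Type*} [CommRing O] [IsReduced O] [Algebra.IsIntegral ℤ O] {L : Type*} [Field L]
  [CharZero L] {M : Type*} [AddCommGroup M] [Module L M]

/-- The operators given by a reduced integral ring are semisimple. -/
lemma isSemisimple_of_hom (ρ : O →+* Module.End L M) (a : O) : (ρ a).IsSemisimple := by
  obtain ⟨P, hP, ha⟩ := exists_squarefree a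
  have h1 : (P.map (algebraMap ℤ ℚ)).Separable := PerfectField.separable_iff_squarefree.2 hP
  have h2 : (P.map (algebraMap ℤ L)).Separable := by
    have h3 : P.map (algebraMap ℤ L) = (P.map (algebraMap ℤ ℚ)).map (algebraMap ℚ L) := by
      rw [Polynomial.map_map]
      congr 1
      exact RingHom.ext_int _ _
    rw [h3]
    exact h1.map
  refine Module.End.isSemisimple_of_squarefree_aeval_eq_zero h2.squarefree ?_
  have h4 : aeval (ρ a) (P.map (algebraMap ℤ L)) = aeval (ρ a) P := aeval_map_algebraMap _ _ _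
  rw [h4]
  have h5 : aeval (ρ a) P = ρ (aeval a P) := by
    rw [aeval_def, aeval_def, Polynomial.hom_eval₂]
    congr 1
    exact RingHom.ext_int _ _
  rw [h5, ha, map_zero]

variable [IsAlgClosed L] [FiniteDimensional L M]

/-- The joint eigenvectors span. -/
theorem span_joint (ρ : O →+* Module.End L M) :
    Submodule.span L {x : M | ∃ φ : O →+* algebraicClosure ℚ L, ∀ a, ρ a x = (φ a : L) • x} =
      ⊤ := by
  have h1 := Module.End.iSup_iInf_maxGenEigenspace_eq_top_of_iSup_maxGenEigenspace_eq_top_of_commute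
    (fun a => ρ a) (fun a b _ => by
      change ρ a * ρ b = ρ b * ρ a
      rw [← map_mul, ← map_mul, mul_comm])
    (fun a => Module.End.iSup_maxGenEigenspace_eq_top (ρ a))
  rw [eq_top_iff, ← h1]
  refine iSup_le fun χ x hx => ?_
  by_cases hx0 : x = 0
  · rw [hx0]
    exact Submodule.zero_mem _
  have h2 : ∀ a, ρ a x = χ a • x := by
    intro a
    have h3 : x ∈ (ρ a).maxGenEigenspace (χ a) := (Submodule.mem_iInf _).1 hx a
    rw [(isSemisimple_of_hom ρ a).isFinitelySemisimple.maxGenEigenspace_eq_eigenspace] at h3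
    exact Module.End.mem_eigenspace_iff.1 h3
  have hcancel : ∀ c d : L, c • x = d • x → c = d := fun c d h => by
    rw [← sub_eq_zero, ← sub_smul, smul_eq_zero] at h
    exact sub_eq_zero.1 (h.resolve_right hx0)
  set φ₀ : O →+* L :=
    { toFun := χ
      map_one' := hcancel _ _ (by rw [← h2, map_one, one_smul]; rfl)
      map_mul' := fun a b => hcancel _ _ (by
        rw [← h2, map_mul, Module.End.mul_apply, h2, map_smul, h2, smul_smul, mul_comm])
      map_zero' := hcancel _ _ (by rw [← h2, map_zero, zero_smul]; rfl)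
      map_add' := fun a b => hcancel _ _ (by
        rw [← h2, map_add, LinearMap.add_apply, h2, h2, add_smul]) } with hφ₀
  have halg : ∀ a, φ₀ a ∈ algebraicClosure ℚ L := by
    intro a
    rw [mem_algebraicClosure_iff]
    have h3 : IsIntegral ℤ a := Algebra.IsIntegral.isIntegral a
    have h4 : IsIntegral ℤ (φ₀ a) := map_isIntegral_int φ₀ h3
    exact h4.tower_top.isAlgebraic
  refine Submodule.subset_span ⟨φ₀.codRestrict (algebraicClosure ℚ L) halg, fun a => ?_⟩
  exact h2 a

end Joint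

end Pool.Agent.E8helper40.GD
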