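import Pool.Agent.R908.KqC
import Pool.Agent.R908.BaseC
import Pool.Agent.R908.MainB
import Pool.Agent.E8helper40.GD.Char
import Pool.Agent.E8helper40.GD.Diag

/-!
# Rings acting on an abelian variety: definitions, and the action on the cohomology of `A × Y`
-/

open CategoryTheory AlgebraicGeometry TensorProduct Function

universe u v

namespace Pool.Agent.E8helper40.GD

open Pool.Agent.H914 Pool.Agent.H914.VarClass Pool.Agent.H914.VarClass.Obj
  Pool.Agent.H914.WeilCohomology Pool.Agent.R908

variable {k : Type u} [Field k] {𝒱 : VarClass k} {ops : CycleOps 𝒱}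

/-- The endomorphism `f × id` of `A × Y`. -/
noncomputable def timesId {A : 𝒱.Obj} (f : A ⟶ A) (Y : 𝒱.Obj) : A.prod Y ⟶ A.prod Y :=
  lift (fst A Y ≫ f) (snd A Y)

/-- The commutative ring `O` acts on `H^1(A)` by the pull-backs by the endomorphisms `act a` of
`A`. -/
structure IsRingAction (W : WeilCohomology.{u, v} ops) {A : 𝒱.Obj} {O : Type} [CommRing O]
    (act : O → (A ⟶ A)) : Prop where
  one : ∀ x ∈ W.gr A 1, W.map (act 1) x = x
  add : ∀ a b, ∀ x ∈ W.gr A 1, W.map (act (a + b)) x = W.map (act a) x + W.map (act b) x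
  mul : ∀ a b, ∀ x ∈ W.gr A 1, W.map (act (a * b)) x = W.map (act a) (W.map (act b) x)

section Gen

variable {W : WeilCohomology.{u, v} ops} {A Y : 𝒱.Obj} {O : Type} [CommRing O]
  {act : O → (A ⟶ A)}

lemma map_timesId_fst (f : A ⟶ A) (x : W.H A) :
    W.map (timesId f Y) (W.map (fst A Y) x) = W.map (fst A Y) (W.map f x) := by
  rw [← W.map_comp, ← W.map_comp, timesId, lift_fst]

lemma map_timesId_snd (f : A ⟶ A) (y : W.H Y) :
    W.map (timesId f Y) (W.map (snd A Y) y) = W.map (snd A Y) y := by
  rw [← W.map_comp, timesId, lift_snd]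

/-- The product of the classes `t i` on `A` and of the class `y` on `Y`. -/
noncomputable def tau (W : WeilCohomology.{u, v} ops) {A Y : 𝒱.Obj} {n : ℕ} (t : Fin n → W.H A)
    (y : W.H Y) : W.H (A.prod Y) :=
  W.map (snd A Y) y * W.map (fst A Y) (List.ofFn t).prod

lemma prod_ofFn_smul {n : ℕ} (t : Fin n → W.H A) (e : Fin n → W.K) :
    (List.ofFn fun i => e i • t i).prod = (∏ i, e i) • (List.ofFn t).prod := by
  induction n with
  | zero => simp
  | succ n ih =>
    rw [List.ofFn_succ, List.ofFn_succ, List.prod_cons, List.prod_cons,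
      ih (fun i => t i.succ) (fun i => e i.succ), Fin.prod_univ_succ, smul_mul_smul_comm]

lemma map_tau {n : ℕ} (f : A ⟶ A) {t : Fin n → W.H A} {e : Fin n → W.K}
    (h : ∀ i, W.map f (t i) = e i • t i) (y : W.H Y) :
    W.map (timesId f Y) (tau W t y) = (∏ i, e i) • tau W t y := by
  have h1 : W.map f (List.ofFn t).prod = (∏ i, e i) • (List.ofFn t).prod := by
    rw [map_list_prod, List.map_ofFn, ← prod_ofFn_smul]
    congr 2
    funext i
    exact h i
  rw [tau, map_mul, map_timesId_snd, map_timesId_fst, h1, map_smul, mul_smul_comm]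

/-- The products of classes in a spanning set of `H^1(A)` and of classes on `Y` span the
cohomology of `A × Y`. -/
lemma tau_span (hgen : GeneratedInDegreeOne (W.gr A)) {S : Set (W.H A)}
    (hS : W.gr A 1 ≤ Submodule.span W.K S) (x : W.H (A.prod Y)) :
    x ∈ Submodule.span W.K {x | ∃ (n : ℕ) (t : Fin n → W.H A) (y : W.H Y), (∀ i, t i ∈ S) ∧
      x = tau W t y} := by
  have hpow : ∀ n : ℕ, (W.gr A 1) ^ n ≤ Submodule.span W.K
      {a : W.H A | ∃ t : Fin n → W.H A, (∀ i, t i ∈ S) ∧ a = (List.ofFn t).prod} := by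
    intro n
    induction n with
    | zero =>
      rw [pow_zero, Submodule.one_le]
      exact Submodule.subset_span ⟨fun i => i.elim0, fun i => i.elim0, by
        rw [List.ofFn_zero, List.prod_nil]⟩
    | succ n ih =>
      rw [pow_succ']
      refine (mul_le_mul' hS ih).trans ?_
      rw [Submodule.span_mul_span]
      refine Submodule.span_le.2 ?_
      rintro _ ⟨s, hs, _, ⟨t, ht, rfl⟩, rfl⟩
      refine Submodule.subset_span ⟨Fin.cons s t, ?_, ?_⟩
      · intro i
        refine Fin.cases ?_ (fun i => ?_) i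
        · exact hs
        · exact ht i
      · rw [List.ofFn_succ, List.prod_cons]
        rfl
  refine W.kunneth_induction (p := fun x => x ∈ Submodule.span W.K {x | ∃ (n : ℕ)
    (t : Fin n → W.H A) (y : W.H Y), (∀ i, t i ∈ S) ∧ x = tau W t y})
    (fun _ _ => Submodule.add_mem _) ?_ x
  intro i j a ha b hb
  have h1 := hpow i (hgen i ha)
  rw [W.comm (W.map_mem (fst A Y) ha) (W.map_mem (snd A Y) hb)]
  refine Submodule.smul_mem _ _ ?_
  clear ha
  induction h1 using Submodule.span_induction with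
  | mem a ha =>
    obtain ⟨t, ht, rfl⟩ := ha
    exact Submodule.subset_span ⟨i, t, b, ht, rfl⟩
  | zero => rw [map_zero, mul_zero]; exact Submodule.zero_mem _
  | add x x' _ _ hx hx' => rw [map_add, mul_add]; exact Submodule.add_mem _ hx hx'
  | smul c x _ hx => rw [map_smul, mul_smul_comm]; exact Submodule.smul_mem _ _ hx

/-- Linear forms on the cohomology are given by classes. -/
lemma exists_class (X : 𝒱.Obj) (f : W.H X →ₗ[W.K] W.K) :
    ∃ ω : W.H X, ∀ x, f x = W.tr X (ω * x) := by
  set φ : W.H X →ₗ[W.K] Module.Dual W.K (W.H X) :=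
    (LinearMap.mul W.K (W.H X)).compr₂ (W.tr X) with hφ
  have hφa : ∀ a b, φ a b = W.tr X (a * b) := fun a b => rfl
  have hinj : Function.Injective φ := by
    rw [← LinearMap.ker_eq_bot, LinearMap.ker_eq_bot']
    intro a ha
    apply W.nondeg
    intro b
    rw [← hφa, ha]
    rfl
  have hdim : Module.finrank W.K (W.H X) = Module.finrank W.K (Module.Dual W.K (W.H X)) :=
    (Subspace.dual_finrank_eq).symm
  obtain ⟨ω, hω⟩ := (LinearMap.injective_iff_surjective_of_finrank_eq_finrank hdim).1 hinj f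
  exact ⟨ω, fun x => by rw [← hφa, hω]⟩

/-- The action on `H^1(A)`. -/
noncomputable def IsRingAction.rho (h : IsRingAction W act) :
    O →+* Module.End W.K (W.gr A 1) where
  toFun a := (W.map (act a)).toLinearMap.restrict fun x hx => W.map_mem (act a) hx
  map_one' := LinearMap.ext fun x => Subtype.ext (h.one x x.2)
  map_mul' a b := LinearMap.ext fun x => Subtype.ext (h.mul a b x x.2)
  map_zero' := LinearMap.ext fun x => Subtype.ext (by
    have h1 := h.add 0 0 x x.2
    rw [add_zero, left_eq_add] at h1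
    exact h1)
  map_add' a b := LinearMap.ext fun x => Subtype.ext (h.add a b x x.2)

/-- The element `x` of `H^1(A)` is an eigenvector with the character `φ`. -/
def IsEig (W : WeilCohomology.{u, v} ops) {A : 𝒱.Obj} {O : Type} [CommRing O]
    (act : O → (A ⟶ A)) (φ : O →+* algebraicClosure ℚ W.K) (x : W.H A) : Prop :=
  x ∈ W.gr A 1 ∧ ∀ a, W.map (act a) x = (φ a : W.K) • x

/-- The eigenvectors span `H^1(A)`. -/
lemma IsRingAction.span_eig [IsReduced O] [Algebra.IsIntegral ℤ O] [IsAlgClosed W.K]
    (h : IsRingAction W act) :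
    W.gr A 1 ≤ Submodule.span W.K {x | ∃ φ, IsEig W act φ x} := by
  intro x hx
  have h1 : (⟨x, hx⟩ : W.gr A 1) ∈ Submodule.span W.K {x : W.gr A 1 |
      ∃ φ : O →+* algebraicClosure ℚ W.K, ∀ a, h.rho a x = (φ a : W.K) • x} := by
    rw [span_joint]
    exact Submodule.mem_top
  have h2 := Submodule.mem_map_of_mem (f := (W.gr A 1).subtype) h1
  rw [Submodule.map_span] at h2
  refine Submodule.span_mono ?_ h2
  rintro _ ⟨y, ⟨φ, hφ⟩, rfl⟩
  exact ⟨φ, y.2, fun a => congrArg Subtype.val (hφ a)⟩

end Gen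

end Pool.Agent.E8helper40.GD
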