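import Pool.Agent.E8helper40.GD.Lab

/-!
# Components after the extension of the coefficients
-/

open CategoryTheory AlgebraicGeometry TensorProduct Function

universe u v

namespace Pool.Agent.E8helper40.GD

open Pool.Agent.H914 Pool.Agent.H914.VarClass Pool.Agent.H914.VarClass.Obj
  Pool.Agent.H914.WeilCohomology Pool.Agent.R908

variable {k : Type u} [Field k] {𝒱 : VarClass k} {ops : CycleOps 𝒱}
  {W : WeilCohomology.{u, v} ops} {A Y : 𝒱.Obj} {L : Type v} [Field L] [Algebra W.K L]
  {Λ : Type} {p : Λ → Module.End W.K (W.H A)}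

/-- The span of the products of elements of the blocks with the labels `l`. -/
noncomputable def blockSpan (W : WeilCohomology.{u, v} ops) {A : 𝒱.Obj} {Λ : Type}
    (p : Λ → Module.End W.K (W.H A)) {n : ℕ} (l : Fin n → Λ) : Submodule W.K (W.H A) :=
  Submodule.span W.K {a | ∃ t : Fin n → W.H A, InBlocks (W.gr A 1) p l t ∧
    a = (List.ofFn t).prod}

lemma prod_mem_blockSpan : ∀ {n : ℕ} (l : Fin n → Λ) (t : Fin n → L ⊗[W.K] W.H A),
    (∀ i, t i ∈ (W.gr A 1).baseChange L) → (∀ i, (p (l i)).baseChange L (t i) = t i) →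
    (∀ l, ∀ x ∈ W.gr A 1, p l x ∈ W.gr A 1) → (∀ l, ∀ x ∈ W.gr A 1, p l (p l x) = p l x) →
    (List.ofFn t).prod ∈ (blockSpan W p l).baseChange L := by
  intro n
  induction n with
  | zero =>
    intro l t _ _ _ _
    rw [List.ofFn_zero, List.prod_nil, Algebra.TensorProduct.one_def]
    refine Submodule.tmul_mem_baseChange_of_mem _ ?_
    exact Submodule.subset_span ⟨fun i => i.elim0, fun i => i.elim0, by
      rw [List.ofFn_zero, List.prod_nil]⟩
  | succ n ih =>
    intro l t ht hp hst hid
    rw [List.ofFn_succ, List.prod_cons]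
    have h1 := ih (fun i => l i.succ) (fun i => t i.succ) (fun i => ht i.succ)
      (fun i => hp i.succ) hst hid
    have h2 : ∀ x : L ⊗[W.K] W.H A, x ∈ (W.gr A 1).baseChange L →
        (p (l 0)).baseChange L x * (List.ofFn fun i : Fin n => t i.succ).prod ∈
          (blockSpan W p l).baseChange L := by
      intro x hx
      refine base_induction_mod (P := fun x : L ⊗[W.K] W.H A =>
        (p (l 0)).baseChange L x * (List.ofFn fun i : Fin n => t i.succ).prod ∈
          (blockSpan W p l).baseChange L) ?_ ?_ ?_ hx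
      · rw [map_zero, zero_mul]
        exact Submodule.zero_mem _
      · intro x x' hx hx'
        rw [map_add, add_mul]
        exact Submodule.add_mem _ hx hx'
      · intro r a ha
        rw [LinearMap.baseChange_tmul]
        refine base_induction_mod (P := fun y : L ⊗[W.K] W.H A =>
          r ⊗ₜ[W.K] (p (l 0) a) * y ∈ (blockSpan W p l).baseChange L) ?_ ?_ ?_ h1
        · rw [mul_zero]
          exact Submodule.zero_mem _
        · intro x x' hx hx'
          rw [mul_add]
          exact Submodule.add_mem _ hx hx'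
        · intro r' b hb
          rw [Algebra.TensorProduct.tmul_mul_tmul]
          refine Submodule.tmul_mem_baseChange_of_mem _ ?_
          unfold blockSpan at hb
          induction hb using Submodule.span_induction with
          | mem b hb =>
            obtain ⟨t', ht', rfl⟩ := hb
            refine Submodule.subset_span ⟨Fin.cons (p (l 0) a) t', ?_, ?_⟩
            · intro i
              refine Fin.cases ?_ (fun i => ?_) i
              · exact ⟨hst _ a ha, hid _ a ha⟩
              · exact ht' i
            · rw [List.ofFn_succ, List.prod_cons]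
              rfl
          | zero => rw [mul_zero]; exact Submodule.zero_mem _
          | add x y _ _ hx hy => rw [mul_add]; exact Submodule.add_mem _ hx hy
          | smul c x _ hx => rw [mul_smul_comm]; exact Submodule.smul_mem _ _ hx
    have h3 := h2 (t 0) (ht 0)
    rwa [hp 0] at h3

/-- The class `α` after the extension of the coefficients. -/
noncomputable def upc (L : Type v) [Field L] [Algebra W.K L] {X : 𝒱.Obj} (α : W.H X) :
    (baseW W L).H X := ((1 : L) ⊗ₜ[W.K] α : L ⊗[W.K] W.H X)

/-- Components over the extended field are combinations of components over `K`. -/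
theorem base_component {α : W.H (A.prod Y)} {n : ℕ} (l : Fin n → Λ)
    (hst : ∀ l, ∀ x ∈ W.gr A 1, p l x ∈ W.gr A 1)
    (hid : ∀ l, ∀ x ∈ W.gr A 1, p l (p l x) = p l x)
    (h0 : ∀ t : Fin n → W.H A, InBlocks (W.gr A 1) p l t → ∀ y : W.H Y,
      W.tr (A.prod Y) (W.map (snd A Y) y * W.map (fst A Y) (List.ofFn t).prod * α) = 0)
    (t : Fin n → L ⊗[W.K] W.H A) (ht : ∀ i, t i ∈ (W.gr A 1).baseChange L)
    (hp : ∀ i, (p (l i)).baseChange L (t i) = t i) (y : L ⊗[W.K] W.H Y) :
    (baseW W L).tr (A.prod Y) (tau (baseW W L) (A := A) (Y := Y) t y * upc L α) = 0 := by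
  have h1 := prod_mem_blockSpan l t ht hp hst hid
  have key : ∀ (a : L ⊗[W.K] W.H A), a ∈ (blockSpan W p l).baseChange L →
      ∀ y : L ⊗[W.K] W.H Y, formBase L (W.tr (A.prod Y))
        ((show L ⊗[W.K] W.H (A.prod Y) from (baseW W L).map (snd A Y) y) *
          (show L ⊗[W.K] W.H (A.prod Y) from (baseW W L).map (fst A Y) a) *
          ((1 : L) ⊗ₜ[W.K] α)) = 0 := by
    intro a ha y
    refine base_induction_mod (P := fun a : L ⊗[W.K] W.H A => formBase L (W.tr (A.prod Y))
        ((show L ⊗[W.K] W.H (A.prod Y) from (baseW W L).map (snd A Y) y) *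
          (show L ⊗[W.K] W.H (A.prod Y) from (baseW W L).map (fst A Y) a) *
          ((1 : L) ⊗ₜ[W.K] α)) = 0) ?_ ?_ ?_ ha
    · have e0 : (baseW W L).map (fst A Y) (0 : L ⊗[W.K] W.H A) = 0 := map_zero _
      rw [e0]
      have e1 : (show L ⊗[W.K] W.H (A.prod Y) from (baseW W L).map (snd A Y) y) *
          (0 : L ⊗[W.K] W.H (A.prod Y)) * ((1 : L) ⊗ₜ[W.K] α) = 0 := by
        rw [mul_zero, zero_mul]
      exact (congrArg (formBase L (W.tr (A.prod Y))) e1).trans (map_zero _)
    · intro a b ha hb
      have e0 : (baseW W L).map (fst A Y) (a + b : L ⊗[W.K] W.H A) =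
        (baseW W L).map (fst A Y) a + (baseW W L).map (fst A Y) b := map_add _ _ _
      rw [e0]
      have e1 : (show L ⊗[W.K] W.H (A.prod Y) from (baseW W L).map (snd A Y) y) *
          ((show L ⊗[W.K] W.H (A.prod Y) from (baseW W L).map (fst A Y) a) +
          (show L ⊗[W.K] W.H (A.prod Y) from (baseW W L).map (fst A Y) b)) *
          ((1 : L) ⊗ₜ[W.K] α) =
        (show L ⊗[W.K] W.H (A.prod Y) from (baseW W L).map (snd A Y) y) *
          (show L ⊗[W.K] W.H (A.prod Y) from (baseW W L).map (fst A Y) a) *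
          ((1 : L) ⊗ₜ[W.K] α) +
        (show L ⊗[W.K] W.H (A.prod Y) from (baseW W L).map (snd A Y) y) *
          (show L ⊗[W.K] W.H (A.prod Y) from (baseW W L).map (fst A Y) b) *
          ((1 : L) ⊗ₜ[W.K] α) := by
        rw [mul_add, add_mul]
      refine (congrArg (formBase L (W.tr (A.prod Y))) e1).trans ?_
      rw [map_add, ha, hb, add_zero]
    · intro r a ha
      refine tmul_induction (P := fun y : L ⊗[W.K] W.H Y => formBase L (W.tr (A.prod Y))
        ((show L ⊗[W.K] W.H (A.prod Y) from (baseW W L).map (snd A Y) y) *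
          (show L ⊗[W.K] W.H (A.prod Y) from (baseW W L).map (fst A Y) (r ⊗ₜ[W.K] a)) *
          ((1 : L) ⊗ₜ[W.K] α)) = 0) ?_ ?_ ?_ y
      · have e0 : (baseW W L).map (snd A Y) (0 : L ⊗[W.K] W.H Y) = 0 := map_zero _
        rw [e0]
        have e1 : (0 : L ⊗[W.K] W.H (A.prod Y)) *
            (show L ⊗[W.K] W.H (A.prod Y) from (baseW W L).map (fst A Y) (r ⊗ₜ[W.K] a)) *
            ((1 : L) ⊗ₜ[W.K] α) = 0 := by
          rw [zero_mul, zero_mul]
        exact (congrArg (formBase L (W.tr (A.prod Y))) e1).trans (map_zero _)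
      · intro y y' hy hy'
        have e0 : (baseW W L).map (snd A Y) (y + y' : L ⊗[W.K] W.H Y) =
          (baseW W L).map (snd A Y) y + (baseW W L).map (snd A Y) y' := map_add _ _ _
        rw [e0]
        have e1 : ((show L ⊗[W.K] W.H (A.prod Y) from (baseW W L).map (snd A Y) y) +
            (show L ⊗[W.K] W.H (A.prod Y) from (baseW W L).map (snd A Y) y')) *
            (show L ⊗[W.K] W.H (A.prod Y) from (baseW W L).map (fst A Y) (r ⊗ₜ[W.K] a)) *
            ((1 : L) ⊗ₜ[W.K] α) =
          (show L ⊗[W.K] W.H (A.prod Y) from (baseW W L).map (snd A Y) y) *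
            (show L ⊗[W.K] W.H (A.prod Y) from (baseW W L).map (fst A Y) (r ⊗ₜ[W.K] a)) *
            ((1 : L) ⊗ₜ[W.K] α) +
          (show L ⊗[W.K] W.H (A.prod Y) from (baseW W L).map (snd A Y) y') *
            (show L ⊗[W.K] W.H (A.prod Y) from (baseW W L).map (fst A Y) (r ⊗ₜ[W.K] a)) *
            ((1 : L) ⊗ₜ[W.K] α) := by
          rw [add_mul, add_mul]
        refine (congrArg (formBase L (W.tr (A.prod Y))) e1).trans ?_
        rw [map_add, hy, hy', add_zero]
      · intro r' b
        rw [base_map_tmul, base_map_tmul]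
        have e1 : (r' ⊗ₜ[W.K] W.map (snd A Y) b : L ⊗[W.K] W.H (A.prod Y)) *
            (r ⊗ₜ[W.K] W.map (fst A Y) a) * ((1 : L) ⊗ₜ[W.K] α) =
            (r' * r) ⊗ₜ[W.K] (W.map (snd A Y) b * W.map (fst A Y) a * α) := by
          rw [Algebra.TensorProduct.tmul_mul_tmul, Algebra.TensorProduct.tmul_mul_tmul, mul_one]
        refine (congrArg (formBase L (W.tr (A.prod Y))) e1).trans ?_
        rw [formBase_tmul]
        have e2 : W.tr (A.prod Y) (W.map (snd A Y) b * W.map (fst A Y) a * α) = 0 := by
          clear e1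
          unfold blockSpan at ha
          induction ha using Submodule.span_induction with
          | mem a ha =>
            obtain ⟨t', ht', rfl⟩ := ha
            exact h0 t' ht' b
          | zero => rw [map_zero, mul_zero, zero_mul, map_zero]
          | add x y _ _ hx hy => rw [map_add, mul_add, add_mul, map_add, hx, hy, add_zero]
          | smul c x _ hx => rw [map_smul, mul_smul_comm, smul_mul_assoc, map_smul, hx, smul_zero]
        rw [e2, map_zero, mul_zero]
  exact key _ h1 y

end Pool.Agent.E8helper40.GD
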