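import Pool.Agent.H447R3.DegDefs
import Pool.Agent.R908.BalDefs

/-!
# Linear forms with rational values, and the injectivity conjecture: definitions
-/

open CategoryTheory AlgebraicGeometry

universe u v u' w w'

namespace Pool.Agent.E8helper40.GD

open Pool.Agent.H914 Pool.Agent.H914.VarClass Pool.Agent.H914.VarClass.Obj
  Pool.Agent.H914.WeilCohomology

/-- Every linear form `f` on `H`, with values in some extension `F` of the field `K`, which has
rational values on the classes `cl z` of all `z` in `P`, is given by some `w` in `Q` on these
classes: `f (cl z) = pair z w` for all `z` in `P`. -/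
def RationalFormsRepresented (K : Type v) [Field K] {M : Type w} [AddCommGroup M] {H : Type w'}
    [AddCommGroup H] [Module K H] (cl : M →+ H) (P Q : M → Prop) (pair : M → M → ℚ) : Prop :=
  ∀ (F : Type v) [Field F] [Algebra K F] (f : H →ₗ[K] F),
    (∀ z, P z → ∃ q : ℚ, f (cl z) = (q : F)) →
      ∃ w, Q w ∧ ∀ z, P z → f (cl z) = (pair z w : F)

/-- If the classes of `z 0, …, z (n - 1)` in `P` are linearly independent over `ℚ`, then they are
linearly independent over `K`. -/
def IndependentOverK (K : Type*) [Field K] {M : Type*} [AddCommGroup M] {H : Type*}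
    [AddCommGroup H] [Module K H] (cl : M →+ H) (P : M → Prop) : Prop :=
  ∀ (n : ℕ) (z : Fin n → M), (∀ i, P (z i)) →
    (∀ q : Fin n → ℚ, ∑ i, (q i : K) • cl (z i) = 0 → ∀ i, q i = 0) →
      ∀ q : Fin n → K, ∑ i, q i • cl (z i) = 0 → ∀ i, q i = 0

variable {k : Type u} [Field k] {𝒱 : VarClass k} {ops : CycleOps 𝒱}

/-- Every linear form on the cohomology of `V`, with values in some extension `F` of the coefficient
field, which has rational values on the classes of the cycles of codimension `j`, is on these
classes the intersection number with a cycle of codimension `dim V - j`. -/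
def RationalFormsAlgebraic (W : WeilCohomology.{u, v} ops) (V : 𝒱.Obj) (j : ℕ) : Prop :=
  RationalFormsRepresented W.K (W.cl V) (V.IsCyc j) (V.IsCyc (V.dim - j))
    fun z w => V.V.degCycle (ops.mul z w)

/-- Tate's injectivity conjecture `I` for cycles of codimension `j` on `V`: cycles of codimension `j`
whose classes are linearly independent over `ℚ` have classes which are linearly independent over
the coefficient field. -/
def InjectivityIn (W : WeilCohomology.{u, v} ops) (V : 𝒱.Obj) (j : ℕ) : Prop :=
  IndependentOverK W.K (W.cl V) (V.IsCyc j)

end Pool.Agent.E8helper40.GD
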