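import Pool.Agent.H447R3.DegDefs
import Pool.Agent.R908.BalDefs

/-!
# Specialisations of cycles: definitions
-/

open CategoryTheory AlgebraicGeometry

universe u v u' w w'

namespace Pool.Agent.E8helper40.GD

open Pool.Agent.H914 Pool.Agent.H914.VarClass Pool.Agent.H914.VarClass.Obj
  Pool.Agent.H914.WeilCohomology

/-- The map `sp` maps `P` to `P'`, and there are a homomorphism `τ` of the coefficient fields and a
`τ`-semilinear additive map `σ`, injective on the subspace `N`, which maps the class of each `z` in
`P` to the class of `sp z`. -/
def IsCompatible (K K' : Type*) [Field K] [Field K'] {M M' : Type*} [AddCommGroup M]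
    [AddCommGroup M'] {H H' : Type*} [AddCommGroup H] [Module K H] [AddCommGroup H']
    [Module K' H'] (N : Submodule K H) (cl : M →+ H) (cl' : M' →+ H') (P : M → Prop)
    (P' : M' → Prop) (sp : M → M') : Prop :=
  (∀ z, P z → P' (sp z)) ∧ ∃ (τ : K →+* K') (σ : H →+ H'), (∀ c x, σ (c • x) = τ c • σ x) ∧
    (∀ x ∈ N, σ x = 0 → x = 0) ∧ ∀ z, P z → σ (cl z) = cl' (sp z)

/-- The subspace `N` is contained in the subspace `N'`. -/
def IsContained {K : Type*} [Field K] {H : Type*} [AddCommGroup H] [Module K H]
    (N N' : Submodule K H) : Prop :=
  ∀ x ∈ N, x ∈ N'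

variable {k : Type u} [Field k] {𝒱 : VarClass k} {ops : CycleOps 𝒱}

/-- The map `sp` from the cycles on `V` to the cycles on `X`, a variety over another field of the
same dimension, is a specialisation of cycles of codimension `j`: there is an additive map `σ` of the
cohomology of `V` to the cohomology of `X`, semilinear with respect to a homomorphism `τ` of the
coefficient fields, which is injective on `H^{2j}(V)` and maps the class of each cycle `z` of
codimension `j` to the class of the cycle `sp z` of codimension `j`. For instance, `X` is a special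
fibre of a smooth proper family with the generic fibre `V`. -/
def IsSpecialization {k' : Type u'} [Field k'] {𝒱' : VarClass k'} {ops' : CycleOps 𝒱'}
    (W : WeilCohomology.{u, v} ops) (W' : WeilCohomology.{u', v} ops') {V : 𝒱.Obj} {X : 𝒱'.Obj}
    (sp : V.Cycles → X.Cycles) (j : ℕ) : Prop :=
  X.dim = V.dim ∧
    IsCompatible W.K W'.K (W.gr V (2 * j)) (W.cl V) (W'.cl X) (V.IsCyc j) (X.IsCyc j) sp

end Pool.Agent.E8helper40.GD
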