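import Pool.Agent.E8helper40.GD.Main
import Pool.Agent.H447R3.DegDefs
import Pool.Agent.E8helper40.GD.DefsI

/-!
# Linear forms with rational values on the algebraic classes
-/

open CategoryTheory AlgebraicGeometry TensorProduct Function

universe u v u'

namespace Pool.Agent.E8helper40.GD

open Pool.Agent.H914 Pool.Agent.H914.VarClass Pool.Agent.H914.VarClass.Obj
  Pool.Agent.H914.WeilCohomology Pool.Agent.R908 Pool.Agent.H447

variable {k : Type u} [Field k] {𝒱 : VarClass k} {ops : CycleOps 𝒱}

/-- The linear form `f` on the cohomology of `V`, with values in an extension `F` of the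
coefficient field, takes rational values on the classes of the cycles of codimension `j`. -/
def IsRationalOn (W : WeilCohomology.{u, v} ops) (V : 𝒱.Obj) (j : ℕ) {F : Type v} [Field F]
    [Algebra W.K F] (f : W.H V →ₗ[W.K] F) : Prop :=
  ∀ z, V.IsCyc j z → ∃ q : ℚ, f (W.cl V z) = (q : F)

/-- The linear forms with rational values on all algebraic classes of codimension `j` vanish on
the classes of the numerically trivial cycles. -/
def FormsVanish (W : WeilCohomology.{u, v} ops) (V : 𝒱.Obj) (j : ℕ) : Prop :=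
  ∀ (F : Type v) [Field F] [Algebra W.K F] (f : W.H V →ₗ[W.K] F), IsRationalOn W V j f →
    ∀ z, IsNumTrivial ops V j z → f (W.cl V z) = 0

section Alg

variable {W : WeilCohomology.{u, v} ops} {V : 𝒱.Obj} {j : ℕ}

lemma cl_smul (q : ℚ) (z : V.Cycles) : W.cl V (q • z) = (q : W.K) • W.cl V z := by
  have h1 := map_ratCast_smul (W.cl V) ℚ W.K q z
  rw [Rat.cast_id] at h1
  exact h1

lemma deg_eq (hj : j ≤ V.dim) {z w : V.Cycles} (hz : V.IsCyc j z) (hw : V.IsCyc (V.dim - j) w) :
    ((V.V.degCycle (ops.mul z w) : ℚ) : W.K) = W.tr V (W.cl V z * W.cl V w) := by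
  have h1 := ops.mul_mem hz hw
  rw [show j + (V.dim - j) = V.dim by omega] at h1
  rw [← W.cl_mul, W.tr_cl h1]

/-- The cycles of codimension `j`. -/
def cyc (V : 𝒱.Obj) (j : ℕ) : Submodule ℚ V.Cycles where
  carrier := {z | V.IsCyc j z}
  zero_mem' := SmVar.IsCyc.zero _ _
  add_mem' := fun h h' => SmVar.IsCyc.add h h'
  smul_mem' := fun q _ h => SmVar.IsCyc.smul q h

/-- The intersection numbers with a cycle. -/
noncomputable def numForm (W : WeilCohomology.{u, v} ops) (V : 𝒱.Obj) {j : ℕ} (hj : j ≤ V.dim)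
    (w : cyc V (V.dim - j)) : cyc V j →ₗ[ℚ] ℚ where
  toFun z := V.V.degCycle (ops.mul z.1 w.1)
  map_add' z z' := by
    have h0 : ((V.V.degCycle (ops.mul (z + z').1 w.1) : ℚ) : W.K) =
        ((V.V.degCycle (ops.mul z.1 w.1) + V.V.degCycle (ops.mul z'.1 w.1) : ℚ) : W.K) := by
      push_cast
      have h1 : V.IsCyc j (z.1 + z'.1) := (z + z').2
      rw [deg_eq hj h1 w.2, deg_eq hj z.2 w.2, deg_eq hj z'.2 w.2, map_add, add_mul, map_add]
    exact Rat.cast_injective h0
  map_smul' q z := by
    have h0 : ((V.V.degCycle (ops.mul (q • z).1 w.1) : ℚ) : W.K) =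
        ((q * V.V.degCycle (ops.mul z.1 w.1) : ℚ) : W.K) := by
      push_cast
      have h1 : V.IsCyc j (q • z.1) := (q • z).2
      rw [deg_eq hj h1 w.2, deg_eq hj z.2 w.2, cl_smul, smul_mul_assoc, map_smul, smul_eq_mul]
    exact Rat.cast_injective h0

lemma numForm_cast (hj : j ≤ V.dim) (w : cyc V (V.dim - j)) (z : cyc V j) :
    ((numForm W V hj w z : ℚ) : W.K) = W.tr V (W.cl V z.1 * W.cl V w.1) := deg_eq hj z.2 w.2

/-- A rational linear form as a form on the space of the cycles. -/
lemma exists_ratForm {F : Type v} [Field F] [Algebra W.K F] {f : W.H V →ₗ[W.K] F}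
    (hf : IsRationalOn W V j f) :
    ∃ φ : cyc V j →ₗ[ℚ] ℚ, ∀ z, ((φ z : ℚ) : F) = f (W.cl V z.1) := by
  have : CharZero F := charZero_of_injective_algebraMap (algebraMap W.K F).injective
  choose q hq using fun z : cyc V j => hf z.1 z.2
  refine ⟨⟨⟨q, fun z z' => ?_⟩, fun r z => ?_⟩, fun z => (hq z).symm⟩
  · have h1 : ((q (z + z') : ℚ) : F) = ((q z + q z' : ℚ) : F) := by
      push_cast
      rw [← hq, ← hq, ← hq, Submodule.coe_add, map_add, map_add]
    exact Rat.cast_injective h1
  · have h1 : ((q (r • z) : ℚ) : F) = ((r * q z : ℚ) : F) := by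
      push_cast
      rw [← hq, ← hq, Submodule.coe_smul, cl_smul, map_smul, Algebra.smul_def, map_ratCast]
    exact Rat.cast_injective h1

/-- Finitely many cycles detect numerical triviality. -/
lemma exists_detect (W : WeilCohomology.{u, v} ops) (V : 𝒱.Obj) {j : ℕ} (hj : j ≤ V.dim) :
    ∃ (n : ℕ) (w : Fin n → cyc V (V.dim - j)), ∀ z : cyc V j,
      (∀ i, numForm W V hj (w i) z = 0) → ∀ w', numForm W V hj w' z = 0 := by
  obtain ⟨b, hb, hspan, hli⟩ := exists_linearIndependent W.K
    (Set.range fun w : cyc V (V.dim - j) => W.cl V w.1)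
  have hfin : b.Finite := hli.setFinite
  have := hfin.fintype
  choose g hg using fun x : b => hb x.2
  refine ⟨Fintype.card b, fun i => g ((Fintype.equivFin b).symm i), fun z hz w' => ?_⟩
  have h1 : W.cl V w'.1 ∈ Submodule.span W.K b := by
    rw [hspan]
    exact Submodule.subset_span ⟨w', rfl⟩
  have h2 : ∀ x ∈ Submodule.span W.K b, W.tr V (W.cl V z.1 * x) = 0 := by
    intro x hx
    induction hx using Submodule.span_induction with
    | mem x hx =>
      have h3 := hz (Fintype.equivFin b ⟨x, hx⟩)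
      beta_reduce at h3
      rw [Equiv.symm_apply_apply] at h3
      have h4 := numForm_cast (W := W) hj (g ⟨x, hx⟩) z
      rw [h3, Rat.cast_zero] at h4
      have h5 : W.cl V (g ⟨x, hx⟩).1 = x := hg ⟨x, hx⟩
      rw [← h5]
      exact h4.symm
    | zero => rw [mul_zero, map_zero]
    | add x y _ _ hx hy => rw [mul_add, map_add, hx, hy, add_zero]
    | smul c x _ hx => rw [mul_smul_comm, map_smul, hx, smul_zero]
  have h3 := numForm_cast (W := W) hj w' z
  rw [h2 _ h1] at h3
  exact_mod_cast h3

/-- **Rational linear forms are given by algebraic cycles.** -/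
theorem represented_of_vanish (hj : j ≤ V.dim) (h : FormsVanish W V j) :
    RationalFormsAlgebraic W V j := by
  intro F _ _ f hf
  have : CharZero F := charZero_of_injective_algebraMap (algebraMap W.K F).injective
  obtain ⟨φ, hφ⟩ := exists_ratForm hf
  obtain ⟨n, w, hw⟩ := exists_detect W V hj
  have h1 : φ ∈ Submodule.span ℚ (Set.range fun i => numForm W V hj (w i)) := by
    apply mem_span_of_iInf_ker_le_ker
    intro z hz
    rw [Submodule.mem_iInf] at hz
    have h2 := hw z hz
    have h3 := h F f hf z.1 ⟨hj, z.2, fun w' hw' => h2 ⟨w', hw'⟩⟩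
    rw [← hφ] at h3
    exact LinearMap.mem_ker.2 (by exact_mod_cast h3)
  rw [Submodule.mem_span_range_iff_exists_fun] at h1
  obtain ⟨q, hq⟩ := h1
  refine ⟨(∑ i, q i • w i : cyc V (V.dim - j)).1, (∑ i, q i • w i : cyc V (V.dim - j)).2,
    fun z hz => ?_⟩
  rw [← hφ ⟨z, hz⟩]
  congr 1
  have h2 : ((φ ⟨z, hz⟩ : ℚ) : W.K) =
      ((numForm W V hj (∑ i, q i • w i) ⟨z, hz⟩ : ℚ) : W.K) := by
    rw [← hq, numForm_cast, LinearMap.sum_apply, Rat.cast_sum, AddSubmonoidClass.coe_finsetSum,
      map_sum, Finset.mul_sum, map_sum]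
    refine Finset.sum_congr rfl fun i _ => ?_
    rw [LinearMap.smul_apply, smul_eq_mul, Rat.cast_mul, numForm_cast, Submodule.coe_smul,
      cl_smul, mul_smul_comm, map_smul, smul_eq_mul]
  exact Rat.cast_injective h2

/-- The conjecture `D` implies the injectivity. -/
theorem lifts_of_homEqNumIn (hj : j ≤ V.dim) (h : HomEqNumIn W V j) :
    InjectivityIn W V j := by
  intro n z hz hq c hc
  -- the intersection numbers
  by_contra hne
  push Not at hne
  obtain ⟨i₀, hi₀⟩ := hne
  obtain ⟨lam, hlam⟩ := Module.Projective.exists_dual_ne_zero ℚ hi₀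
  have h1 : ∀ i, lam (c i) = 0 := by
    apply hq
    have h4 : (∑ i, lam (c i) • (⟨z i, hz i⟩ : cyc V j)).1 = ∑ i, lam (c i) • z i := by
      rw [AddSubmonoidClass.coe_finsetSum]
      rfl
    have h0 : W.cl V (∑ i, lam (c i) • z i) = ∑ i, ((lam (c i) : ℚ) : W.K) • W.cl V (z i) := by
      rw [map_sum]
      exact Finset.sum_congr rfl fun i _ => cl_smul _ _
    rw [← h0]
    apply h
    · have h2 := (∑ i, lam (c i) • (⟨z i, hz i⟩ : cyc V j)).2
      rw [h4] at h2
      exact h2
    intro w hw
    have h2 : ∀ z : cyc V j, V.V.degCycle (ops.mul z.1 w) = numForm W V hj ⟨w, hw⟩ z :=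
      fun z => rfl
    have h3 := h2 (∑ i, lam (c i) • (⟨z i, hz i⟩ : cyc V j))
    rw [h4] at h3
    rw [h3, map_sum]
    have h5 : ∑ i, c i * ((numForm W V hj ⟨w, hw⟩ ⟨z i, hz i⟩ : ℚ) : W.K) = 0 := by
      have h6 := congrArg (fun x => W.tr V (x * W.cl V w)) hc
      beta_reduce at h6
      rw [zero_mul, map_zero, Finset.sum_mul, map_sum] at h6
      rw [← h6]
      refine Finset.sum_congr rfl fun i _ => ?_
      rw [smul_mul_assoc, map_smul, smul_eq_mul, numForm_cast]
    have h6 := congrArg lam h5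
    rw [map_zero, map_sum] at h6
    rw [← h6]
    refine Finset.sum_congr rfl fun i _ => ?_
    rw [map_smul, smul_eq_mul, mul_comm]
    have h7 : c i * ((numForm W V hj ⟨w, hw⟩ ⟨z i, hz i⟩ : ℚ) : W.K) =
        (numForm W V hj ⟨w, hw⟩ ⟨z i, hz i⟩ : ℚ) • c i := by
      rw [Algebra.smul_def, mul_comm, eq_ratCast]
    rw [h7, map_smul, smul_eq_mul]
  exact hlam (h1 i₀)

/-- If linear independence of the classes of cycles in `C` over `ℚ` implies linear independence
over `K`, then the class of a cycle in `C` is zero if it is annihilated by all linear forms with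
rational values on the classes of the cycles in `C`. -/
theorem cl_eq_zero_of_lifts (C : Submodule ℚ V.Cycles)
    (hI : IndependentOverK W.K (W.cl V) (· ∈ C)) {z : V.Cycles} (hz : z ∈ C)
    (h : ∀ f : W.H V →ₗ[W.K] W.K, (∀ x ∈ C, ∃ q : ℚ, f (W.cl V x) = (q : W.K)) →
      f (W.cl V z) = 0) : W.cl V z = 0 := by
  classical
  by_contra hne
  let _ : Module ℚ (W.H V) := Module.compHom _ (algebraMap ℚ W.K)
  set cL : C →ₗ[ℚ] W.H V := (W.cl V).toRatLinearMap ∘ₗ C.subtype with hcL
  have hcLa : ∀ z, cL z = W.cl V z.1 := fun z => rfl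
  set M := LinearMap.range cL with hM
  set x₀ : M := ⟨W.cl V z, ⟨⟨z, hz⟩, rfl⟩⟩ with hx₀
  have hx₀ne : x₀ ≠ 0 := fun h1 => hne (congrArg Subtype.val h1)
  have hli : LinearIndepOn ℚ id ({x₀} : Set M) := LinearIndepOn.singleton hx₀ne
  set b := Module.Basis.extend hli with hb
  have hb₀ : x₀ ∈ hli.extend (Set.subset_univ _) := hli.subset_extend _ rfl
  have hbz : ∀ i, ∃ z : C, W.cl V z.1 = (b i : W.H V) := fun i => (b i).2
  choose y hy using hbz
  have hK : LinearIndependent W.K fun i => (b i : W.H V) := by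
    rw [linearIndependent_iff_finset_linearIndependent]
    intro s
    have h1 := hI s.card (fun i => (y (s.equivFin.symm i)).1) (fun i => (y _).2) (by
      intro q hq
      have h2 : ∑ i, q i • b (s.equivFin.symm i) = 0 := by
        apply Subtype.ext
        rw [AddSubmonoidClass.coe_finsetSum, ZeroMemClass.coe_zero, ← hq]
        refine Finset.sum_congr rfl fun i _ => ?_
        rw [hy]
        have h3 : ((q i • b (s.equivFin.symm i) : M) : W.H V) =
          (algebraMap ℚ W.K (q i)) • (b (s.equivFin.symm i) : W.H V) := rfl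
        rw [h3, eq_ratCast]
      have h3 := b.linearIndependent.comp (fun i => (s.equivFin.symm i : _))
        (Subtype.val_injective.comp s.equivFin.symm.injective)
      exact Fintype.linearIndependent_iff.1 h3 q h2)
    have h2 := (Fintype.linearIndependent_iff.2 h1).comp s.equivFin s.equivFin.injective
    have h3 : ((fun i => W.cl V (y (s.equivFin.symm i)).1) ∘ s.equivFin) =
        (fun i => (b i : W.H V)) ∘ ((↑) : s → _) := by
      funext i
      simp [hy]
    rw [h3] at h2
    exact h2
  set i₀ : hli.extend (Set.subset_univ _) := ⟨x₀, hb₀⟩ with hi₀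
  have hbi : (b i₀ : W.H V) = W.cl V z := by
    rw [hb, Module.Basis.extend_apply_self]
  have hnot : (b i₀ : W.H V) ∉ Submodule.span W.K ((fun i => (b i : W.H V)) '' {i | i ≠ i₀}) :=
    hK.notMem_span_image (by simp)
  obtain ⟨g, hg, hgk⟩ := Submodule.exists_le_ker_of_notMem hnot
  rw [hbi] at hg
  have hrat : ∀ z' ∈ C, ∃ q : ℚ, ((g (W.cl V z))⁻¹ • g) (W.cl V z') = (q : W.K) := by
    intro z' hz'
    have h1 : ∀ x : M, ∃ q : ℚ, ((g (W.cl V z))⁻¹ • g) (x : W.H V) = (q : W.K) := by
      intro x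
      have hx : x ∈ Submodule.span ℚ (Set.range b) := by
        rw [b.span_eq]
        exact Submodule.mem_top
      induction hx using Submodule.span_induction with
      | mem x hx =>
        obtain ⟨i, rfl⟩ := hx
        by_cases hi : i = i₀
        · refine ⟨1, ?_⟩
          rw [hi, hbi, LinearMap.smul_apply, smul_eq_mul, inv_mul_cancel₀ hg, Rat.cast_one]
        · refine ⟨0, ?_⟩
          have h2 : g (b i : W.H V) = 0 := hgk (Submodule.subset_span ⟨i, hi, rfl⟩)
          rw [LinearMap.smul_apply, h2, smul_zero, Rat.cast_zero]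
      | zero =>
        refine ⟨0, ?_⟩
        rw [ZeroMemClass.coe_zero, map_zero, Rat.cast_zero]
      | add x x' _ _ hx hx' =>
        obtain ⟨q, hq⟩ := hx
        obtain ⟨q', hq'⟩ := hx'
        refine ⟨q + q', ?_⟩
        rw [Submodule.coe_add, map_add, hq, hq', Rat.cast_add]
      | smul r x _ hx =>
        obtain ⟨q, hq⟩ := hx
        refine ⟨r * q, ?_⟩
        have h2 : ((r • x : M) : W.H V) = (r : W.K) • (x : W.H V) := by
          have h3 : ((r • x : M) : W.H V) = (algebraMap ℚ W.K r) • (x : W.H V) := rfl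
          rw [h3, eq_ratCast]
        rw [h2, map_smul, hq, smul_eq_mul, Rat.cast_mul]
    exact h1 ⟨W.cl V z', ⟨⟨z', hz'⟩, rfl⟩⟩
  have h1 := h _ hrat
  rw [LinearMap.smul_apply, smul_eq_mul, inv_mul_cancel₀ hg] at h1
  exact one_ne_zero h1

/-- The injectivity and the vanishing of rational linear forms imply the conjecture `D`. -/
theorem homEqNumIn_of_lifts (hj : j ≤ V.dim) (h : FormsVanish W V j)
    (hI : InjectivityIn W V j) : HomEqNumIn W V j := by
  intro z hz hnum
  exact cl_eq_zero_of_lifts (cyc V j) hI hz fun f hf => h W.K f hf z ⟨hj, hz, hnum⟩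

/-- If the classes of all cycles in `C` vanish then their independence lifts. -/
lemma lifts_of_zero (P : V.Cycles → Prop) (h : ∀ z, P z → W.cl V z = 0) :
    IndependentOverK W.K (W.cl V) P := by
  intro n z hz hq q _ i
  have h2 := hq (fun _ => 1) (by
    refine Finset.sum_eq_zero fun i _ => ?_
    rw [h _ (hz i), smul_zero]) i
  exact absurd h2 one_ne_zero

end Alg

end Pool.Agent.E8helper40.GD
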