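import Pool.Agent.E8helper40.GD.Act

/-!
# The blocks containing the eigenspaces of the centre
-/

open CategoryTheory AlgebraicGeometry TensorProduct Function

universe u v

namespace Pool.Agent.E8helper40.GD

open Pool.Agent.H914 Pool.Agent.H914.VarClass Pool.Agent.H914.VarClass.Obj
  Pool.Agent.H914.WeilCohomology Pool.Agent.R908

variable {k : Type u} [Field k] {𝒱 : VarClass k} {ops : CycleOps 𝒱}

/-- The structure `IsCentralAction` in terms of the pull-backs. -/
structure IsCAction (W : WeilCohomology.{u, v} ops) {A : 𝒱.Obj} (D : A.Cycles) {Λ : Type}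
    (p : Λ → Module.End W.K (W.H A)) {O : Type} [CommRing O] (c : O →+* O)
    (act : O → (A ⟶ A)) : Prop extends IsRingAction W act where
  adjoint : ∀ a, ∀ x ∈ W.gr A 1, ∀ y ∈ W.gr A 1,
    trForm (W.tr A) (W.cl A D) (A.dim - 1) (W.map (act a) x) y =
      trForm (W.tr A) (W.cl A D) (A.dim - 1) x (W.map (act (c a)) y)
  blocks : ∀ l, ∃ e ∈ Submodule.span W.K (Set.range fun a => (W.map (act a)).toLinearMap),
    ∀ x ∈ W.gr A 1, p l x = e x

lemma IsCentralAction.cAction {W : WeilCohomology.{u, v} ops} {A : 𝒱.Obj} {D : A.Cycles}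
    {Λ : Type} {p : Λ → Module.End W.K (W.H A)} {O : Type} [CommRing O] {c : O →+* O}
    {act : O → (A ⟶ A)} (h : IsCentralAction W D p c act) : IsCAction W D p c act :=
  { one := h.one, add := h.add, mul := h.mul, adjoint := h.adjoint, blocks := h.blocks }

section Base

variable {W : WeilCohomology.{u, v} ops} {A Y : 𝒱.Obj} {O : Type} [CommRing O]
  {act : O → (A ⟶ A)} {L : Type v} [Field L] [Algebra W.K L] {D : A.Cycles} {c : O →+* O}

lemma base_map_eq (f : A ⟶ A) (x : L ⊗[W.K] W.H A) :
    (baseW W L).map f x = (W.map f).toLinearMap.baseChange L x := by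
  refine tmul_induction (P := fun x : L ⊗[W.K] W.H A =>
    (baseW W L).map f x = (W.map f).toLinearMap.baseChange L x) ?_ ?_ ?_ x
  · have h0 : (baseW W L).map f (0 : L ⊗[W.K] W.H A) = 0 := map_zero _
    rw [h0, map_zero]
    rfl
  · intro x y hx hy
    have h0 : (baseW W L).map f (x + y : L ⊗[W.K] W.H A) =
      (baseW W L).map f x + (baseW W L).map f y := map_add _ _ _
    rw [h0, hx, hy, map_add]
    rfl
  · intro l a
    rw [base_map_tmul, LinearMap.baseChange_tmul]
    rfl

/-- The form `x, y ↦ tr (x D ^ n y)` after the extension of the coefficients. -/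
noncomputable def bL (W : WeilCohomology.{u, v} ops) (L : Type v) [Field L] [Algebra W.K L]
    {A : 𝒱.Obj} (D : A.Cycles) (n : ℕ) (x y : L ⊗[W.K] W.H A) : L :=
  formBase L (W.tr A) (x * (((1 : L) ⊗ₜ[W.K] W.cl A D) ^ n * y))

lemma bL_eq (n : ℕ) (x y : L ⊗[W.K] W.H A) :
    trForm ((baseW W L).tr A) ((baseW W L).cl A D) n x y = bL W L D n x y := rfl

lemma bL_tmul (n : ℕ) (l l' : L) (x y : W.H A) :
    bL W L D n (l ⊗ₜ[W.K] x) (l' ⊗ₜ[W.K] y) =
      l * l' * algebraMap W.K L (trForm (W.tr A) (W.cl A D) n x y) := by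
  rw [bL, Algebra.TensorProduct.tmul_pow, one_pow, Algebra.TensorProduct.tmul_mul_tmul,
    Algebra.TensorProduct.tmul_mul_tmul, one_mul, formBase_tmul]
  rfl

lemma bL_add_left (n : ℕ) (x x' y : L ⊗[W.K] W.H A) :
    bL W L D n (x + x') y = bL W L D n x y + bL W L D n x' y := by
  rw [bL, add_mul, map_add, bL, bL]

lemma bL_add_right (n : ℕ) (x y y' : L ⊗[W.K] W.H A) :
    bL W L D n x (y + y') = bL W L D n x y + bL W L D n x y' := by
  rw [bL, mul_add, mul_add, map_add, bL, bL]

lemma bL_smul_left (n : ℕ) (l : L) (x y : L ⊗[W.K] W.H A) :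
    bL W L D n (l • x) y = l * bL W L D n x y := by
  rw [bL, smul_mul_assoc, map_smul, bL, smul_eq_mul]

lemma bL_smul_right (n : ℕ) (l : L) (x y : L ⊗[W.K] W.H A) :
    bL W L D n x (l • y) = l * bL W L D n x y := by
  rw [bL, mul_smul_comm, mul_smul_comm, map_smul, bL, smul_eq_mul]

lemma bL_zero_left (n : ℕ) (y : L ⊗[W.K] W.H A) : bL W L D n 0 y = 0 := by
  rw [bL, zero_mul, map_zero]

lemma bL_zero_right (n : ℕ) (x : L ⊗[W.K] W.H A) : bL W L D n x 0 = 0 := by
  rw [bL, mul_zero, mul_zero, map_zero]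

/-- Adjoint operators remain adjoint after the extension of the coefficients. -/
lemma bL_adjoint {n : ℕ} {T : Submodule W.K (W.H A)} {E E' : W.H A →ₗ[W.K] W.H A}
    (h : ∀ x ∈ T, ∀ y ∈ T, trForm (W.tr A) (W.cl A D) n (E x) y =
      trForm (W.tr A) (W.cl A D) n x (E' y)) {x y : L ⊗[W.K] W.H A}
    (hx : x ∈ T.baseChange L) (hy : y ∈ T.baseChange L) :
    bL W L D n (E.baseChange L x) y = bL W L D n x (E'.baseChange L y) := by
  refine base_induction_mod (P := fun x : L ⊗[W.K] W.H A =>
    bL W L D n (E.baseChange L x) y = bL W L D n x (E'.baseChange L y)) ?_ ?_ ?_ hx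
  · rw [map_zero, bL_zero_left, bL_zero_left]
  · intro x x' hx hx'
    rw [map_add, bL_add_left, bL_add_left, hx, hx']
  · intro l a ha
    refine base_induction_mod (P := fun y : L ⊗[W.K] W.H A =>
      bL W L D n (E.baseChange L (l ⊗ₜ[W.K] a)) y =
        bL W L D n (l ⊗ₜ[W.K] a) (E'.baseChange L y)) ?_ ?_ ?_ hy
    · rw [map_zero, bL_zero_right, bL_zero_right]
    · intro y y' hy hy'
      rw [map_add, bL_add_right, bL_add_right, hy, hy']
    · intro l' b hb
      rw [LinearMap.baseChange_tmul, LinearMap.baseChange_tmul, bL_tmul, bL_tmul, h a ha b hb]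

lemma IsRingAction.base (h : IsRingAction W act) : IsRingAction (baseW W L) act := by
  constructor
  · intro (x : L ⊗[W.K] W.H A) hx
    rw [base_map_eq]
    refine base_induction_mod (P := fun x : L ⊗[W.K] W.H A =>
      (W.map (act 1)).toLinearMap.baseChange L x = x) (map_zero _) ?_ ?_ hx
    · intro x y hx hy
      rw [map_add, hx, hy]
    · intro l a ha
      rw [LinearMap.baseChange_tmul, AlgHom.toLinearMap_apply, h.one a ha]
  · intro a b (x : L ⊗[W.K] W.H A) hx
    rw [base_map_eq, base_map_eq, base_map_eq]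
    refine base_induction_mod (P := fun x : L ⊗[W.K] W.H A =>
      (W.map (act (a + b))).toLinearMap.baseChange L x =
        (W.map (act a)).toLinearMap.baseChange L x +
          (W.map (act b)).toLinearMap.baseChange L x) ?_ ?_ ?_ hx
    · simp only [map_zero, add_zero]
    · intro x y hx hy
      rw [map_add, map_add, map_add, hx, hy]
      abel
    · intro l x hx
      rw [LinearMap.baseChange_tmul, LinearMap.baseChange_tmul, LinearMap.baseChange_tmul,
        AlgHom.toLinearMap_apply, AlgHom.toLinearMap_apply, AlgHom.toLinearMap_apply,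
        h.add a b x hx, TensorProduct.tmul_add]
  · intro a b (x : L ⊗[W.K] W.H A) hx
    rw [base_map_eq, base_map_eq, base_map_eq]
    refine base_induction_mod (P := fun x : L ⊗[W.K] W.H A =>
      (W.map (act (a * b))).toLinearMap.baseChange L x =
        (W.map (act a)).toLinearMap.baseChange L
          ((W.map (act b)).toLinearMap.baseChange L x)) ?_ ?_ ?_ hx
    · simp only [map_zero]
    · intro x y hx hy
      rw [map_add, map_add, map_add, hx, hy]
    · intro l x hx
      rw [LinearMap.baseChange_tmul, LinearMap.baseChange_tmul, LinearMap.baseChange_tmul,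
        AlgHom.toLinearMap_apply, AlgHom.toLinearMap_apply, AlgHom.toLinearMap_apply,
        h.mul a b x hx]

/-- The form on `H^1` is nondegenerate. -/
lemma nondeg_one (hL : HardLefschetz W A D) {x : W.H A} (hx : x ∈ W.gr A 1) (hx0 : x ≠ 0) :
    ∃ y ∈ W.gr A 1, trForm (W.tr A) (W.cl A D) (A.dim - 1) x y ≠ 0 := by
  by_contra hcon
  push Not at hcon
  apply hx0
  apply W.nondeg
  intro b
  refine gr_induction (W.isInternal A) (p := fun b => W.tr A (x * b) = 0) ?_ ?_ b
  · intro i b hb
    by_cases hi : 1 + i = 2 * A.dim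
    · obtain rfl : i = 2 * A.dim - 1 := by omega
      obtain ⟨y, hy, hyb⟩ := (hL 1 (by omega)).2 b hb
      have h1 := hcon y hy
      have h2 : ((LinearMap.mulLeft W.K (W.cl A D)) ^ (A.dim - 1)) y =
          W.cl A D ^ (A.dim - 1) * y := by
        have h3 : ((LinearMap.mulLeft W.K (W.cl A D)) ^ (A.dim - 1)) y =
          lefP W A D (A.dim - 1) y := rfl
        rw [h3, lefP_eq]
      rw [h2] at hyb
      rw [← hyb]
      exact h1
    · exact W.tr_eq_zero (W.mul_mem hx hb) hi
  · intro y y' h h'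
    rw [mul_add, map_add, h, h', add_zero]

/-- The operators in the algebra generated by `O` act by scalars on eigenvectors. -/
lemma exists_scal {e : W.H A →ₗ[W.K] W.H A}
    (he : e ∈ Submodule.span W.K (Set.range fun a => (W.map (act a)).toLinearMap)) :
    ∃ s : (O →+* algebraicClosure ℚ (baseW W L).K) → L, ∀ φ (x : L ⊗[W.K] W.H A),
      IsEig (baseW W L) act φ x → e.baseChange L x = s φ • x := by
  induction he using Submodule.span_induction with
  | mem e he =>
    obtain ⟨a, rfl⟩ := he
    refine ⟨fun φ => ((φ a : algebraicClosure ℚ (baseW W L).K) : (baseW W L).K),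
      fun φ x hx => ?_⟩
    have h1 := hx.2 a
    rw [base_map_eq] at h1
    exact h1
  | zero =>
    refine ⟨0, fun φ x _ => ?_⟩
    rw [LinearMap.baseChange_zero, Pi.zero_apply, zero_smul, LinearMap.zero_apply]
  | add e e' _ _ h h' =>
    obtain ⟨s, hs⟩ := h
    obtain ⟨s', hs'⟩ := h'
    refine ⟨s + s', fun φ x hx => ?_⟩
    rw [LinearMap.baseChange_add, LinearMap.add_apply, hs φ x hx, hs' φ x hx, Pi.add_apply,
      add_smul]
  | smul r e _ h =>
    obtain ⟨s, hs⟩ := h
    refine ⟨fun φ => algebraMap W.K L r * s φ, fun φ x hx => ?_⟩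
    rw [LinearMap.baseChange_smul, LinearMap.smul_apply, hs φ x hx, mul_smul, algebraMap_smul]

variable {Λ : Type} [Fintype Λ] {bar : Λ → Λ} {p : Λ → Module.End W.K (W.H A)}
  {𝒢 : Set (Symmetry W)}

lemma baseChange_congr {T : Submodule W.K (W.H A)} {E E' : W.H A →ₗ[W.K] W.H A}
    (h : ∀ x ∈ T, E x = E' x) {x : L ⊗[W.K] W.H A} (hx : x ∈ T.baseChange L) :
    E.baseChange L x = E'.baseChange L x := by
  refine base_induction_mod (P := fun x : L ⊗[W.K] W.H A =>
    E.baseChange L x = E'.baseChange L x) ?_ ?_ ?_ hx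
  · rw [map_zero, map_zero]
  · intro x x' hx hx'
    rw [map_add, map_add, hx, hx']
  · intro l a ha
    rw [LinearMap.baseChange_tmul, LinearMap.baseChange_tmul, h a ha]

/-- The labels of the characters of `O` in `H^1(A)`. -/
theorem exists_labels (hp : IsBlockSystemOne 𝒢 A D bar p) (hact : IsCAction W D p c act)
    (hD : A.IsCyc 1 D) (hL : HardLefschetz W A D) [IsReduced O] [Algebra.IsIntegral ℤ O]
    [IsAlgClosed (baseW W L).K] (hcc : ∀ (φ : O →+* algebraicClosure ℚ (baseW W L).K) (a : O),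
      φ (c (c a)) = φ a) :
    ∃ s : Λ → (O →+* algebraicClosure ℚ (baseW W L).K) → L,
      (∀ l φ (x : L ⊗[W.K] W.H A), IsEig (baseW W L) act φ x →
        (p l).baseChange L x = s l φ • x) ∧
      (∀ φ, (∃ x, x ≠ 0 ∧ IsEig (baseW W L) act φ x) → ∃ l, s l φ = 1) ∧
      (∀ φ, (∃ x, x ≠ 0 ∧ IsEig (baseW W L) act φ x) → ∀ l l', s l φ = 1 → s l' φ = 1 →
        l = l') ∧
      (∀ φ, (∃ x, x ≠ 0 ∧ IsEig (baseW W L) act (φ.comp c) x) → ∀ l, s l φ = 1 →
        s (bar l) (φ.comp c) = 1) := by
  have h0 : ∀ l, ∃ s : (O →+* algebraicClosure ℚ (baseW W L).K) → L,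
      ∀ φ (x : L ⊗[W.K] W.H A), IsEig (baseW W L) act φ x →
        (p l).baseChange L x = s φ • x := by
    intro l
    obtain ⟨e, he, hpe⟩ := hact.blocks l
    obtain ⟨s, hs⟩ := exists_scal (L := L) he
    refine ⟨s, fun φ x hx => ?_⟩
    rw [← hs φ x hx]
    exact baseChange_congr hpe hx.1
  choose s hs using h0
  have hcancel : ∀ (x : L ⊗[W.K] W.H A), x ≠ 0 → ∀ a b : L, a • x = b • x → a = b := by
    intro x hx a b h
    rw [← sub_eq_zero, ← sub_smul, smul_eq_zero] at h
    exact sub_eq_zero.1 (h.resolve_right hx)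
  have hsum : ∀ x : L ⊗[W.K] W.H A, x ∈ (W.gr A 1).baseChange L →
      ∑ l, (p l).baseChange L x = x := by
    intro x hx
    refine base_induction_mod (P := fun x : L ⊗[W.K] W.H A =>
      ∑ l, (p l).baseChange L x = x) ?_ ?_ ?_ hx
    · simp only [map_zero, Finset.sum_const_zero]
    · intro x x' hx hx'
      simp only [map_add]
      rw [Finset.sum_add_distrib, hx, hx']
    · intro r a ha
      simp only [LinearMap.baseChange_tmul]
      rw [← TensorProduct.tmul_sum, hp.sum a ha]
  have hmul : ∀ l l' φ (x : L ⊗[W.K] W.H A), IsEig (baseW W L) act φ x →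
      (p l ∘ₗ p l').baseChange L x = (s l φ * s l' φ) • x := by
    intro l l' φ x hx
    rw [LinearMap.baseChange_comp, LinearMap.comp_apply, hs l' φ x hx, map_smul, hs l φ x hx,
      smul_smul, mul_comm]
  have hidem : ∀ φ (x : L ⊗[W.K] W.H A), x ≠ 0 → IsEig (baseW W L) act φ x →
      ∀ l, s l φ * s l φ = s l φ := by
    intro φ x hx0 hx l
    apply hcancel x hx0
    rw [← hmul l l φ x hx, ← hs l φ x hx]
    exact baseChange_congr (fun y hy => hp.idem l y hy) hx.1
  refine ⟨s, hs, ?_, ?_, ?_⟩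
  · rintro φ ⟨(x : L ⊗[W.K] W.H A), hx0, hx⟩
    by_contra hcon
    push Not at hcon
    have h1 : ∀ l, s l φ = 0 := by
      intro l
      have h2 := hidem φ x hx0 hx l
      have h3 : s l φ * (s l φ - 1) = 0 := by rw [mul_sub, h2, mul_one, sub_self]
      rcases mul_eq_zero.1 h3 with h4 | h4
      · exact h4
      · exact absurd (sub_eq_zero.1 h4) (hcon l)
    apply hx0
    have h2 := hsum x hx.1
    rw [← h2]
    refine Finset.sum_eq_zero fun l _ => ?_
    rw [hs l φ x hx, h1, zero_smul]
    rfl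
  · rintro φ ⟨(x : L ⊗[W.K] W.H A), hx0, hx⟩ l l' hl hl'
    by_contra hne
    have h1 := hmul l l' φ x hx
    rw [hl, hl', mul_one, one_smul] at h1
    apply hx0
    rw [← h1]
    have h2 := baseChange_congr (L := L) (E := p l ∘ₗ p l') (E' := 0)
      (fun y hy => hp.ortho l l' hne y hy) hx.1
    rw [h2, LinearMap.baseChange_zero]
    rfl
  · rintro φ ⟨(x : L ⊗[W.K] W.H A), hx0, hx⟩ l hl
    have hLL : HardLefschetz (baseW W L) A D := base_hardLefschetz hD hL
    obtain ⟨y, hy, hxy⟩ := nondeg_one hLL hx.1 hx0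
    have hxy' : bL W L D (A.dim - 1) x y ≠ 0 := hxy
    -- an eigenvector which pairs nontrivially
    obtain ⟨ψ, y, hy, hxy⟩ : ∃ ψ, ∃ y : L ⊗[W.K] W.H A, IsEig (baseW W L) act ψ y ∧
        bL W L D (A.dim - 1) x y ≠ 0 := by
      by_contra hcon
      push Not at hcon
      apply hxy'
      have h1 := hact.toIsRingAction.base (L := L) |>.span_eig hy
      clear hy hxy hxy'
      induction h1 using Submodule.span_induction with
      | mem y hy =>
        obtain ⟨ψ, hψ⟩ := hy
        exact hcon ψ y hψ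
      | zero => exact bL_zero_right _ _
      | add y y' _ _ h h' =>
        refine (bL_add_right _ _ _ _).trans ?_
        rw [h, h', add_zero]
      | smul r y _ h =>
        refine (bL_smul_right _ (show L from r) _ _).trans ?_
        exact (congrArg (fun z : L => (show L from r) * z) h).trans (mul_zero _)
    have hψ : ∀ a, ((φ.comp c) a : (baseW W L).K) = (ψ (c a) : (baseW W L).K) := by
      intro a
      have h1 := bL_adjoint (L := L) (n := A.dim - 1) (E := (W.map (act a)).toLinearMap)
        (E' := (W.map (act (c a))).toLinearMap) (hact.adjoint a) hx.1 hy.1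
      rw [← base_map_eq, ← base_map_eq, hx.2 a, hy.2 (c a)] at h1
      have h2 : (show L from ((φ.comp c) a : (baseW W L).K)) * bL W L D (A.dim - 1) x y =
          (show L from (ψ (c a) : (baseW W L).K)) * bL W L D (A.dim - 1) x y :=
        (bL_smul_left _ _ _ _).symm.trans (h1.trans (bL_smul_right _ _ _ _))
      exact mul_right_cancel₀ (M₀ := L) hxy h2
    have hψφ : ψ = φ := by
      refine RingHom.ext fun a => ?_
      rw [← hcc ψ a]
      have h1 := hψ (c a)
      have h2 : (φ.comp c) (c a) = ψ (c (c a)) := Subtype.ext h1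
      rw [← h2, RingHom.comp_apply, hcc]
    have h1 := bL_adjoint (L := L) (n := A.dim - 1) (E := p (bar l)) (E' := p (bar (bar l)))
      (fun x hx y hy => hp.adjoint (bar l) x hx y hy) hx.1 hy.1
    rw [hs _ _ x hx, hs _ _ y hy, hp.involutive, hψφ, hl, one_smul, bL_smul_left] at h1
    exact mul_right_cancel₀ hxy (h1.trans (one_mul _).symm)

end Base

end Pool.Agent.E8helper40.GD
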