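import Pool.Agent.R908.RatB
import Pool.Agent.E8helper40.GD.Comp

/-!
# Rational linear forms vanish on numerically trivial cycles
-/

open CategoryTheory AlgebraicGeometry TensorProduct Function

universe u v

namespace Pool.Agent.E8helper40.GD

open Pool.Agent.H914 Pool.Agent.H914.VarClass Pool.Agent.H914.VarClass.Obj
  Pool.Agent.H914.WeilCohomology Pool.Agent.R908

variable {k : Type u} [Field k] {𝒱 : VarClass k} {ops : CycleOps 𝒱}
  {W : WeilCohomology.{u, v} ops} {A Y : 𝒱.Obj} {m : A.prod A ⟶ A} {D : A.Cycles}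
  {𝒢 : Set (Symmetry W)} {Λ : Type} [Fintype Λ] {bar : Λ → Λ}
  {p : Λ → Module.End W.K (W.H A)} {O : Type} [CommRing O] {act : O → (A ⟶ A)} {c : O →+* O}

lemma cl_mem_span {Z : 𝒱.Obj} {j : ℕ} {z : Z.Cycles} (hz : Z.IsCyc j z) :
    W.cl Z z ∈ spanCycles W Z (j : ℤ) := Submodule.subset_span ⟨j, rfl, z, hz, rfl⟩

/-- The decomposition of a linear form on the classes of the translates of a cycle. -/
lemma exists_decomp [IsReduced O] [Algebra.IsIntegral ℤ O] [IsAlgClosed W.K]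
    (hA : IsAbelianLike W A m) (hact : IsRingAction W act) {j : ℕ} {z : (A.prod Y).Cycles}
    (hz : (A.prod Y).IsCyc j z) (f : W.H (A.prod Y) →ₗ[W.K] W.K) :
    ∃ (N : ℕ) (n : Fin N → ℕ) (φ : ∀ i, Fin (n i) → (O →+* algebraicClosure ℚ W.K))
      (t : ∀ i, Fin (n i) → W.H A) (y : Fin N → W.H Y) (e : Fin N → W.K),
      (∀ i s, IsEig W act (φ i s) (t i s)) ∧
      f (W.cl _ z) = ∑ i, e i * W.tr _ (tau W (t i) (y i) * W.cl _ z) ∧
      ∀ a, f (W.cl _ (ops.push (timesId (act a) Y) z)) =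
        ∑ i, ((∏ s, φ i s a : algebraicClosure ℚ W.K) : W.K) *
          (e i * W.tr _ (tau W (t i) (y i) * W.cl _ z)) := by
  obtain ⟨ω, hω⟩ := exists_class (A.prod Y) f
  have h1 := tau_span (Y := Y) hA.gen hact.span_eig ω
  obtain ⟨N, e, g, hg⟩ := Submodule.mem_span_set'.1 h1
  choose n t y hS ht using fun i => (g i).2
  choose φ hφ using hS
  refine ⟨N, n, φ, t, y, e, hφ, ?_, ?_⟩
  · rw [hω, ← hg, Finset.sum_mul, map_sum]
    refine Finset.sum_congr rfl fun i _ => ?_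
    rw [smul_mul_assoc, map_smul, smul_eq_mul, ht]
  · intro a
    have h2 : W.tr _ (ω * W.push (timesId (act a) Y) (W.cl _ z)) =
        W.tr _ (W.map (timesId (act a) Y) ω * W.cl _ z) := by
      have h3 : W.push (timesId (act a) Y) (W.cl _ z) ∈ spanCycles W (A.prod Y) (j : ℤ) := by
        rw [← W.cl_push]
        refine cl_mem_span (ops.push_mem _ hz ?_)
        rfl
      rw [← span_comm h3, W.tr_push, span_comm (cl_mem_span hz)]
    rw [hω, W.cl_push, h2, ← hg, map_sum, Finset.sum_mul, map_sum]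
    refine Finset.sum_congr rfl fun i _ => ?_
    rw [map_smul, smul_mul_assoc, map_smul, smul_eq_mul, ht,
      map_tau (act a) (fun s => (hφ i s).2 a) (y i), smul_mul_assoc, map_smul, smul_eq_mul]
    have h4 : ((∏ s, φ i s a : algebraicClosure ℚ W.K) : W.K) =
        ∏ s, ((φ i s a : algebraicClosure ℚ W.K) : W.K) := by
      exact map_prod (algebraMap (algebraicClosure ℚ W.K) W.K) _ _
    rw [h4]
    ring

/-- Sums over families of homomorphisms with the same products. -/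
lemma sum_eq_of_prod {O : Type*} [CommRing O] {F : Type*} [Field F] [CharZero F] {n n' : ℕ}
    (φ : Fin n → (O →+* F)) (φ' : Fin n' → (O →+* F)) (h : ∀ a, ∏ s, φ s a = ∏ s, φ' s a)
    (v : (O →+* F) → ℝ) : ∑ s, v (φ s) = ∑ s, v (φ' s) ∧ ∀ s, ∃ s', φ s = φ' s' := by
  have h1 : (Finset.univ.val.map φ) = (Finset.univ.val.map φ') := by
    refine multiset_eq_of_prod _ _ fun a => ?_
    rw [Multiset.map_map, Multiset.map_map]
    exact h a
  refine ⟨?_, fun s => ?_⟩
  · have h2 := congrArg (fun u => (Multiset.map v u).sum) h1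
    beta_reduce at h2
    rw [Multiset.map_map, Multiset.map_map] at h2
    exact h2
  · have h2 : φ s ∈ Finset.univ.val.map φ := Multiset.mem_map_of_mem _ (Finset.mem_univ s)
    rw [h1, Multiset.mem_map] at h2
    obtain ⟨s', -, hs'⟩ := h2
    exact ⟨s', hs'.symm⟩

lemma tau_eq_zero {n : ℕ} {t : Fin n → W.H A} {i : Fin n} (hi : t i = 0) (y : W.H Y) :
    tau W t y = 0 := by
  have h1 : (List.ofFn t).prod = 0 := by
    apply List.prod_eq_zero
    rw [← hi]
    exact List.mem_ofFn.2 ⟨i, rfl⟩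
  rw [tau, h1, map_zero, mul_zero]

/-- **Rational linear forms vanish on numerically trivial cycles.** -/
theorem form_eq_zero [IsReduced O] [Algebra.IsIntegral ℤ O] (hA : IsAbelianType 𝒢 A m D)
    (hp : IsBlockSystemOne 𝒢 A D bar p) (hc : IsComplexConjugation c)
    (hact : IsCAction W D p c act) {j : ℕ} {z : (A.prod Y).Cycles}
    (hz : (A.prod Y).IsCyc j z) (w : Λ → ℝ) (hw : ∀ l, w (bar l) = -w l)
    (hwz : ∀ (n : ℕ) (l : Fin n → Λ) (t : Fin n → W.H A), InBlocks (W.gr A 1) p l t →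
      ∀ y : W.H Y, component W z t y ≠ 0 → ∑ i, w (l i) < 0)
    {F : Type v} [Field F] [Algebra W.K F] (f : W.H (A.prod Y) →ₗ[W.K] F)
    (hf : ∀ a, ∃ q : ℚ, f (W.cl _ (ops.push (timesId (act a) Y) z)) = (q : F)) :
    f (W.cl _ z) = 0 := by
  classical
  set L := AlgebraicClosure F with hL
  set f' : W.H (A.prod Y) →ₗ[W.K] L := (IsScalarTower.toAlgHom W.K F L).toLinearMap ∘ₗ f with hf'
  set fL : (baseW W L).H (A.prod Y) →ₗ[(baseW W L).K] (baseW W L).K :=
    (f'.liftBaseChange L : L ⊗[W.K] W.H (A.prod Y) →ₗ[L] L) with hfL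
  have hfLcl : ∀ x : (A.prod Y).Cycles, fL ((baseW W L).cl _ x) =
      (show (baseW W L).K from algebraMap F L (f (W.cl _ x))) := by
    intro x
    have h1 : f'.liftBaseChange L ((1 : L) ⊗ₜ[W.K] (W.cl _ x)) = algebraMap F L (f (W.cl _ x)) := by
      rw [LinearMap.liftBaseChange_tmul, one_smul]
      rfl
    exact h1
  have : IsAlgClosed (baseW W L).K := (inferInstance : IsAlgClosed L)
  obtain ⟨N, n, φ, t, y, e, hφ, h1, h2⟩ := exists_decomp (W := baseW W L) (Y := Y)
    (isAbelianLike_base hA.abelianLike) (hact.toIsRingAction.base (L := L)) hz fL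
  obtain ⟨ι⟩ := exists_emb (baseW W L).K
  by_contra hne
  -- the characters
  set χ : Fin N → (O →* (algebraicClosure ℚ (baseW W L).K)) := fun i => ∏ s, (φ i s : O →* (algebraicClosure ℚ (baseW W L).K)) with hχ
  have hχa : ∀ i a, χ i a = ∏ s, φ i s a := by
    intro i a
    rw [hχ]
    beta_reduce
    rw [MonoidHom.finsetProd_apply]
    rfl
  set h : Fin N → (baseW W L).K := fun i =>
    e i * (baseW W L).tr _ (tau (baseW W L) (t i) (y i) * (baseW W L).cl _ z) with hh
  set g : (O →* (algebraicClosure ℚ (baseW W L).K)) →₀ (baseW W L).K := ∑ i, Finsupp.single (χ i) (h i) with hg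
  have hgsum : ∀ (r : (O →* (algebraicClosure ℚ (baseW W L).K)) → (baseW W L).K),
      (g.sum fun χ x => r χ * x) = ∑ i, r (χ i) * h i := by
    intro r
    rw [hg, ← Finsupp.sum_finsetSum_index (by simp) (by intro χ x y; rw [mul_add])]
    refine Finset.sum_congr rfl fun i _ => ?_
    rw [Finsupp.sum_single_index (mul_zero _)]
  have hgne : ∀ ψ, g ψ ≠ 0 → ∃ i, χ i = ψ ∧ h i ≠ 0 := by
    intro ψ hψ
    rw [hg, Finsupp.finsetSum_apply] at hψ
    obtain ⟨i, -, hi⟩ := Finset.exists_ne_zero_of_sum_ne_zero hψ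
    rw [Finsupp.single_apply_ne_zero] at hi
    exact ⟨i, hi.1.symm, hi.2⟩
  have hprod : ∀ ψ ∈ g.support, IsProdHom ψ := by
    intro ψ hψ
    obtain ⟨i, rfl, -⟩ := hgne ψ (Finsupp.mem_support_iff.1 hψ)
    refine ⟨Finset.univ.val.map (φ i), fun a => ?_⟩
    rw [hχa, Multiset.map_map]
    rfl
  choose B hB using hf
  have hB' : ∀ a, ((B a : ℚ) : (baseW W L).K) =
      g.sum fun χ x => algebraMap (algebraicClosure ℚ (baseW W L).K) (baseW W L).K (χ a) * x := by
    intro a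
    have h3 := h2 a
    rw [hfLcl, hB] at h3
    rw [hgsum fun χ => algebraMap (algebraicClosure ℚ (baseW W L).K) (baseW W L).K (χ a)]
    have h4 : (show (baseW W L).K from algebraMap F L ((B a : ℚ) : F)) =
        ((B a : ℚ) : (baseW W L).K) := by
      exact map_ratCast (algebraMap F L) (B a)
    rw [← h4, h3]
    refine Finset.sum_congr rfl fun i _ => ?_
    rw [hχa]
    rfl
  -- a character with a nonzero coefficient
  have hsum0 : ∑ i, h i ≠ 0 := by
    intro h0
    have h3 : fL ((baseW W L).cl _ z) = 0 := h1.trans h0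
    rw [hfLcl] at h3
    exact hne ((map_eq_zero_iff _ (algebraMap F L).injective).1 h3)
  obtain ⟨i₀, hi₀⟩ : ∃ i, g (χ i) ≠ 0 := by
    by_contra hcon
    push Not at hcon
    apply hsum0
    have h3 := hgsum fun _ => 1
    simp only [one_mul] at h3
    rw [← h3, Finsupp.sum]
    refine Finset.sum_eq_zero fun ψ hψ => ?_
    obtain ⟨i, hi, -⟩ := hgne ψ (Finsupp.mem_support_iff.1 hψ)
    rw [← hi, hcon]
  have hconj := conj_support hc (ι : (algebraicClosure ℚ (baseW W L).K) →+* ℂ) B g hprod hB' hi₀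
  obtain ⟨i₁, hi₁, hne₁⟩ := hgne _ hconj
  obtain ⟨i₂, hi₂, hne₂⟩ := hgne _ hi₀
  -- labels
  have hcc : ∀ (φ : O →+* (algebraicClosure ℚ (baseW W L).K)) (a : O), φ (c (c a)) = φ a := by
    intro φ a
    have h3 : IsProdHom (φ : O →* (algebraicClosure ℚ (baseW W L).K)) :=
      ⟨{φ}, fun a => by rw [Multiset.map_singleton, Multiset.prod_singleton]; rfl⟩
    exact hc.twice (ι : (algebraicClosure ℚ (baseW W L).K) →+* ℂ) h3 a
  obtain ⟨s, hs1, hs2, hs3, hs4⟩ := exists_labels hp hact hA.divisor hA.lefschetz hcc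
  set wt : (O →+* (algebraicClosure ℚ (baseW W L).K)) → ℝ := fun φ =>
    ∑ l, if s l φ = 1 then w l else 0 with hwt
  have hwt1 : ∀ φ, (∃ x, x ≠ 0 ∧ IsEig (baseW W L) act φ x) → ∀ l, s l φ = 1 → wt φ = w l := by
    intro φ hφ l hl
    rw [hwt]
    beta_reduce
    rw [Finset.sum_eq_single l, if_pos hl]
    · intro l' _ hl'
      rw [if_neg fun h3 => hl' (hs3 φ hφ l' l h3 hl)]
    · intro h3
      exact absurd (Finset.mem_univ l) h3
  have ht0 : ∀ i, h i ≠ 0 → ∀ s, t i s ≠ 0 := by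
    intro i hi s hs
    apply hi
    rw [hh]
    beta_reduce
    rw [tau_eq_zero hs, zero_mul, map_zero, mul_zero]
  have hneg : ∀ i, h i ≠ 0 → ∑ s, wt (φ i s) < 0 := by
    intro i hi
    choose l hl using fun s' => hs2 (φ i s') ⟨t i s', ht0 i hi s', hφ i s'⟩
    have h3 : ∑ s', wt (φ i s') = ∑ s', w (l s') :=
      Finset.sum_congr rfl fun s' _ => hwt1 _ ⟨t i s', ht0 i hi s', hφ i s'⟩ _ (hl s')
    rw [h3]
    by_contra hcon
    apply hi
    have h4 := base_component (W := W) (L := L) (α := W.cl _ z) (Y := Y) l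
      (fun l x hx => Mot.hom_deg0 (hp.mem l) hx) hp.idem
      (fun t' ht' y' => by
        by_contra h5
        exact hcon (hwz _ l t' ht' y' h5))
      (t i) (fun s' => (hφ i s').1) (fun s' => by
        rw [hs1 _ _ _ (hφ i s'), hl]
        exact one_smul L (show L ⊗[W.K] W.H A from t i s')) (y i)
    rw [hh]
    beta_reduce
    have h6 : (baseW W L).tr _ (tau (baseW W L) (t i) (y i) * (baseW W L).cl _ z) = 0 := h4
    rw [h6, mul_zero]
  have h3 := hneg i₁ hne₁
  have h4 := hneg i₂ hne₂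
  have h5 := sum_eq_of_prod (φ i₁) (fun s => (φ i₂ s).comp c) (by
    intro a
    have h6 := DFunLike.congr_fun hi₁ a
    rw [conjChar_apply, ← hi₂, hχa, hχa] at h6
    exact h6) wt
  have h6 := sum_eq_of_prod (fun s => (φ i₂ s).comp c) (φ i₁) (by
    intro a
    have h6 := DFunLike.congr_fun hi₁ a
    rw [conjChar_apply, ← hi₂, hχa, hχa] at h6
    exact h6.symm) wt
  have h7 : ∀ s', wt ((φ i₂ s').comp c) = -wt (φ i₂ s') := by
    intro s'
    obtain ⟨s'', hs''⟩ := h6.2 s'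
    obtain ⟨l, hl⟩ := hs2 (φ i₂ s') ⟨t i₂ s', ht0 i₂ hne₂ s', hφ i₂ s'⟩
    have h8 : ∃ x, x ≠ 0 ∧ IsEig (baseW W L) act ((φ i₂ s').comp c) x := by
      have h9 : (φ i₂ s').comp c = φ i₁ s'' := hs''
      rw [h9]
      exact ⟨t i₁ s'', ht0 i₁ hne₁ s'', hφ i₁ s''⟩
    rw [hwt1 _ h8 _ (hs4 _ h8 l hl), hwt1 _ ⟨t i₂ s', ht0 i₂ hne₂ s', hφ i₂ s'⟩ _ hl, hw]
  rw [h5.1] at h3
  simp only [h7, Finset.sum_neg_distrib] at h3
  linarith

end Pool.Agent.E8helper40.GD
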