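import Pool.Agent.E8helper40.GD.Forms
import Pool.Agent.E8helper40.GD.DefsS

/-!
# Direct factors and specialisations
-/

open CategoryTheory AlgebraicGeometry TensorProduct Function

universe u v u'

namespace Pool.Agent.E8helper40.GD

open Pool.Agent.H914 Pool.Agent.H914.VarClass Pool.Agent.H914.VarClass.Obj
  Pool.Agent.H914.WeilCohomology Pool.Agent.R908 Pool.Agent.H447

variable {k : Type u} [Field k] {𝒱 : VarClass k} {ops : CycleOps 𝒱}

section Factor

variable {W : WeilCohomology.{u, v} ops} {V Z : 𝒱.Obj} {j : ℕ}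

lemma corr_cl (a : (V.prod Z).Cycles) (z : V.Cycles) :
    W.corr (W.cl _ a) (W.cl V z) = W.cl Z (corrCyc ops a z) := by
  rw [corrCyc, W.cl_push, W.cl_mul, W.cl_pull]
  rfl

lemma corr_mem {r i : ℕ} {a : (V.prod Z).Cycles} (ha : (V.prod Z).IsCyc r a) {z : V.Cycles}
    (hz : V.IsCyc j z) (h : j + r = i + V.dim) :
    Z.IsCyc i (corrCyc ops a z) := by
  refine ops.push_mem _ (ops.mul_mem ha (ops.pull_mem _ hz)) ?_
  rw [dim_prod]
  omega

/-- The vanishing of the rational linear forms is inherited by direct factors. -/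
theorem FormsVanish.factor (h : ∀ i, FormsVanish W Z i) (hV : IsFactorIn W V Z j) :
    FormsVanish W V j := by
  obtain ⟨i, r, s, a, b, ha, hb, h1, h2, hab⟩ := hV
  intro F _ _ f hf z hz
  set z' := corrCyc ops a z with hz'
  have hcl : W.corr (W.cl _ a) (W.cl V z) = W.cl Z z' := corr_cl a z
  have hmem : Z.IsCyc i z' := corr_mem ha hz.2.1 h1
  by_cases hi : i ≤ Z.dim
  · have hn : NumTriv W Z (W.cl Z z') := by
      rw [← hcl]
      refine NumTriv.op (δ := (i : ℤ) - j) (KOp.gen (p := r) ?_ ha)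
        (numTriv_cl hz.1 hz.2.1 hz.2.2)
      omega
    have hnum : IsNumTrivial ops Z i z' := by
      refine ⟨hi, hmem, fun w hw => ?_⟩
      have h3 := hn _ _ (cl_mem_span hw)
      rw [← deg_eq hi hmem hw] at h3
      exact_mod_cast h3
    have h3 := h i F (f ∘ₗ W.corr (W.cl _ b)) (fun x hx => by
      rw [LinearMap.comp_apply, corr_cl b x]
      exact hf _ (corr_mem hb hx h2)) z' hnum
    rw [LinearMap.comp_apply, corr_cl b z', hab z hz.2.1] at h3
    exact h3
  · have h3 : W.cl Z z' = 0 := by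
      have h4 := W.cl_mem hmem
      rw [W.gr_eq_bot _ _ (by omega)] at h4
      exact (Submodule.mem_bot _).1 h4
    have h4 := hab z hz.2.1
    rw [← corr_cl, h3, map_zero] at h4
    rw [← h4, map_zero]

end Factor

section Special

variable {W : WeilCohomology.{u, v} ops} {V : 𝒱.Obj} {j : ℕ} {k' : Type u'} [Field k']
  {𝒱' : VarClass k'} {ops' : CycleOps 𝒱'} {W' : WeilCohomology.{u', v} ops'} {X : 𝒱'.Obj}
  {sp : V.Cycles → X.Cycles}

/-- **Numerically trivial cycles specialise to numerically trivial cycles.** -/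
theorem IsSpecialization.numTrivial (hs : IsSpecialization W W' sp j)
    (h : FormsVanish W V j) {z : V.Cycles} (hz : IsNumTrivial ops V j z) :
    IsNumTrivial ops' X j (sp z) := by
  obtain ⟨hdim, hmem, τ, σ, hsm, -, hcl⟩ := hs
  refine ⟨hdim ▸ hz.1, hmem z hz.2.1, fun w hw => ?_⟩
  let _ : Algebra W.K W'.K := τ.toAlgebra
  have hjX : j ≤ X.dim := hdim ▸ hz.1
  set f : W.H V →ₗ[W.K] W'.K :=
    { toFun := fun x => W'.tr X (σ x * W'.cl X w)
      map_add' := fun x y => by rw [map_add, add_mul, map_add]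
      map_smul' := fun c x => by
        rw [hsm, smul_mul_assoc, map_smul, smul_eq_mul, RingHom.id_apply,
          Algebra.smul_def]
        rfl } with hf
  have hfz : ∀ z, V.IsCyc j z → f (W.cl V z) = ((X.V.degCycle (ops'.mul (sp z) w) : ℚ) : W'.K) := by
    intro z hz
    have h1 : f (W.cl V z) = W'.tr X (σ (W.cl V z) * W'.cl X w) := rfl
    rw [h1, hcl z hz, deg_eq hjX (hmem z hz) hw]
  have h1 := h W'.K f (fun z hz => ⟨_, hfz z hz⟩) z hz
  rw [hfz z hz.2.1] at h1
  exact_mod_cast h1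

/-- **The conjecture `D` for a specialisation implies the conjecture `D`.** -/
theorem IsSpecialization.homEqNumIn (hs : IsSpecialization W W' sp j) (hj : j ≤ V.dim)
    (h : FormsVanish W V j) (hX : HomEqNumIn W' X j) : HomEqNumIn W V j := by
  intro z hz hnum
  obtain ⟨-, h1, h2⟩ := hs.numTrivial h (z := z) ⟨hj, hz, hnum⟩
  obtain ⟨-, -, τ, σ, -, hinj, hcl⟩ := hs
  apply hinj _ (W.cl_mem hz)
  rw [hcl z hz]
  exact hX _ h1 h2

end Special

/-- If the cohomology is spanned by classes of cycles then the conjecture `D` holds. -/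
theorem homEqNumIn_of_span {W : WeilCohomology.{u, v} ops} {V : 𝒱.Obj} {j : ℕ} (hj : j ≤ V.dim)
    (h : IsContained (W.gr V (2 * (V.dim - j))) (spanCycles W V (V.dim - j : ℕ))) :
    HomEqNumIn W V j := by
  intro z hz hnum
  apply W.nondeg
  have key : ∀ i, ∀ b ∈ W.gr V i, W.tr V (W.cl V z * b) = 0 := by
    intro i b hb
    by_cases hi : i = 2 * (V.dim - j)
    · subst hi
      have h1 := h b hb
      clear hb
      induction h1 using Submodule.span_induction with
      | mem x hx =>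
        obtain ⟨i, hi, w, hw, rfl⟩ := hx
        obtain rfl : i = V.dim - j := by exact_mod_cast hi
        rw [← deg_eq hj hz hw, hnum w hw, Rat.cast_zero]
      | zero => rw [mul_zero, map_zero]
      | add x y _ _ hx hy => rw [mul_add, map_add, hx, hy, add_zero]
      | smul c x _ hx => rw [mul_smul_comm, map_smul, hx, smul_zero]
    · exact W.tr_eq_zero (W.mul_mem (W.cl_mem hz) hb) (by omega)
  intro b
  have hb : b ∈ ⨆ i, W.gr V i := by
    rw [(W.isInternal V).submodule_iSup_eq_top]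
    exact Submodule.mem_top
  induction hb using Submodule.iSup_induction' with
  | mem i b hb => exact key i b hb
  | zero => rw [mul_zero, map_zero]
  | add x y _ _ hx hy => rw [mul_add, map_add, hx, hy, add_zero]

section Final

variable {W : WeilCohomology.{u, v} ops} {A : 𝒱.Obj} {m : A.prod A ⟶ A} {D : A.Cycles}
  {𝒢 : Set (Symmetry W)} {Λ : Type} [Fintype Λ] {bar : Λ → Λ}
  {p : Λ → Module.End W.K (W.H A)} {O : Type} [CommRing O] {act : O → (A ⟶ A)} {c : O →+* O}

lemma IsProductOf.mem {𝒴 : Set 𝒱.Obj} (h : ∀ Y ∈ 𝒴, ∀ Z ∈ 𝒴, Y.prod Z ∈ 𝒴) {Y : 𝒱.Obj}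
    (hY : IsProductOf 𝒴 Y) : Y ∈ 𝒴 := by
  induction hY with
  | base h1 => exact h1
  | prod _ _ h1 h2 => exact h _ h1 _ h2

/-- **Rational linear forms vanish on numerically trivial cycles.** -/
theorem form_cl_eq_zero [IsReduced O] [Algebra.IsIntegral ℤ O] {𝒴 : Set 𝒱.Obj}
    (hA : IsAbelianType 𝒢 A m D) (hp : IsBlockSystemOne 𝒢 A D bar p)
    (hc : IsComplexConjugation c) (hact : IsCentralAction W D p c act)
    (h𝒴 : ∀ Y ∈ 𝒴, ∀ Z ∈ 𝒴, Y.prod Z ∈ 𝒴) (hY : ∀ Z ∈ 𝒴, ∀ j ≤ Z.dim, HomEqNumIn W Z j)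
    {Y : 𝒱.Obj} (hYY : Y ∈ 𝒴) {j : ℕ} {z : (A.prod Y).Cycles}
    (hz : IsNumTrivial ops (A.prod Y) j z) {F : Type v} [Field F] [Algebra W.K F]
    (f : W.H (A.prod Y) →ₗ[W.K] F)
    (hf : ∀ a, ∃ q : ℚ, f (W.cl _ (ops.push (timesId (act a) Y) z)) = (q : F)) :
    f (W.cl _ z) = 0 := by
  obtain ⟨w, hw, h⟩ := weights_cycles (𝒴 := 𝒴) hA hp fun Z hZ => hY Z (IsProductOf.mem h𝒴 hZ)
  exact form_eq_zero hA hp hc hact.cAction hz.2.1 w hw
    (fun n l t ht y hne => ((h Y (IsProductOf.base hYY) j z hz).1 n l t ht y hne).1) f hf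

/-- The conjecture `D` for a cycle in terms of the injectivity for its translates. -/
theorem cl_eq_zero_iff_lifts [IsReduced O] [Algebra.IsIntegral ℤ O] {𝒴 : Set 𝒱.Obj}
    (hA : IsAbelianType 𝒢 A m D) (hp : IsBlockSystemOne 𝒢 A D bar p)
    (hc : IsComplexConjugation c) (hact : IsCentralAction W D p c act)
    (h𝒴 : ∀ Y ∈ 𝒴, ∀ Z ∈ 𝒴, Y.prod Z ∈ 𝒴) (hY : ∀ Z ∈ 𝒴, ∀ j ≤ Z.dim, HomEqNumIn W Z j)
    {Y : 𝒱.Obj} (hYY : Y ∈ 𝒴) {j : ℕ} {z : (A.prod Y).Cycles}
    (hz : IsNumTrivial ops (A.prod Y) j z) :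
    W.cl _ z = 0 ↔ IndependentOverK W.K (W.cl _) (· ∈ Submodule.span ℚ
      (insert z (Set.range fun a => ops.push (timesId (act a) Y) z))) := by
  constructor
  · intro h
    apply lifts_of_zero
    intro x hx
    induction hx using Submodule.span_induction with
    | mem x hx =>
      rcases Set.mem_insert_iff.1 hx with rfl | ⟨a, rfl⟩
      · exact h
      · beta_reduce
        rw [W.cl_push, h, map_zero]
    | zero => rw [map_zero]
    | add x y _ _ hx hy => rw [map_add, hx, hy, add_zero]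
    | smul q x _ hx => rw [cl_smul, hx, smul_zero]
  · intro h
    refine cl_eq_zero_of_lifts _ h (Submodule.subset_span (Set.mem_insert _ _)) fun f hf => ?_
    exact form_cl_eq_zero hA hp hc hact h𝒴 hY hYY hz f fun a =>
      hf _ (Submodule.subset_span (Set.mem_insert_of_mem _ ⟨a, rfl⟩))

/-- The rational linear forms vanish on the numerically trivial cycles on direct factors of the
cohomology of `A × Y`. -/
theorem formsVanish [IsReduced O] [Algebra.IsIntegral ℤ O] {𝒴 : Set 𝒱.Obj}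
    (hA : IsAbelianType 𝒢 A m D) (hp : IsBlockSystemOne 𝒢 A D bar p)
    (hc : IsComplexConjugation c) (hact : IsCentralAction W D p c act)
    (h𝒴 : ∀ Y ∈ 𝒴, ∀ Z ∈ 𝒴, Y.prod Z ∈ 𝒴) (hY : ∀ Z ∈ 𝒴, ∀ j ≤ Z.dim, HomEqNumIn W Z j)
    {Y : 𝒱.Obj} (hYY : Y ∈ 𝒴) {V : 𝒱.Obj} {j : ℕ} (hV : IsFactorIn W V (A.prod Y) j) :
    FormsVanish W V j := by
  refine FormsVanish.factor (fun i => ?_) hV
  intro F _ _ f hf z hz
  exact form_cl_eq_zero hA hp hc hact h𝒴 hY hYY hz f fun a => hf _ (ops.push_mem _ hz.2.1 rfl)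

end Final

end Pool.Agent.E8helper40.GD
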