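import Pool.Agent.E8helper40.GD.Rank0
import Pool.Agent.E8helper40.GD.Spec

/-!
# The rank of the space of the classes of numerically trivial cycles
-/

open CategoryTheory AlgebraicGeometry TensorProduct Function

universe u v

namespace Pool.Agent.E8helper40.GD

open Pool.Agent.H914 Pool.Agent.H914.VarClass Pool.Agent.H914.VarClass.Obj
  Pool.Agent.H914.WeilCohomology Pool.Agent.R908 Pool.Agent.H447

variable {k : Type u} [Field k] {𝒱 : VarClass k} {ops : CycleOps 𝒱}
  {W : WeilCohomology.{u, v} ops} {A Y : 𝒱.Obj} {m : A.prod A ⟶ A} {D : A.Cycles}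
  {𝒢 : Set (Symmetry W)} {Λ : Type} [Fintype Λ] {bar : Λ → Λ}
  {p : Λ → Module.End W.K (W.H A)} {O : Type} [CommRing O] {act : O → (A ⟶ A)} {c : O →+* O}

/-- There is an eigenvector with the character `φ`. -/
def HasEig (W : WeilCohomology.{u, v} ops) (act : O → (A ⟶ A))
    (φ : O →+* algebraicClosure ℚ W.K) : Prop := ∃ x, x ≠ 0 ∧ IsEig W act φ x

/-- The weights of the characters. -/
theorem exists_wt [IsReduced O] [Algebra.IsIntegral ℤ O] {L : Type v} [Field L] [Algebra W.K L]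
    [IsAlgClosed (baseW W L).K] (hA : IsAbelianType 𝒢 A m D)
    (hp : IsBlockSystemOne 𝒢 A D bar p) (hact : IsCAction W D p c act)
    (hcc : ∀ (φ : O →+* algebraicClosure ℚ (baseW W L).K) (a : O), φ (c (c a)) = φ a)
    (w : Λ → ℝ) (hw : ∀ l, w (bar l) = -w l) :
    ∃ wt : (O →+* algebraicClosure ℚ (baseW W L).K) → ℝ,
      (∀ φ, HasEig (baseW W L) act φ → HasEig (baseW W L) act (φ.comp c) →
        wt (φ.comp c) = -wt φ) ∧
      ∀ z : (A.prod Y).Cycles, (∀ (n : ℕ) (l : Fin n → Λ) (t : Fin n → W.H A),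
          InBlocks (W.gr A 1) p l t → ∀ y : W.H Y, component W z t y ≠ 0 → ∑ i, w (l i) < 0) →
        ∀ (n : ℕ) (φ : Fin n → (O →+* algebraicClosure ℚ (baseW W L).K))
          (t : Fin n → (baseW W L).H A) (y : (baseW W L).H Y), (∀ i, IsEig (baseW W L) act (φ i) (t i)) →
          (baseW W L).tr _ (tau (baseW W L) t y * (baseW W L).cl _ z) ≠ 0 →
            ∑ i, wt (φ i) < 0 ∧ ∀ i, HasEig (baseW W L) act (φ i) := by
  classical
  obtain ⟨s, hs1, hs2, hs3, hs4⟩ := exists_labels hp hact hA.divisor hA.lefschetz hcc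
  set wt : (O →+* (algebraicClosure ℚ (baseW W L).K)) → ℝ := fun φ =>
    ∑ l, if s l φ = 1 then w l else 0 with hwt
  have hwt1 : ∀ φ, (∃ x, x ≠ 0 ∧ IsEig (baseW W L) act φ x) → ∀ l, s l φ = 1 → wt φ = w l := by
    intro φ hφ l hl
    rw [hwt]
    beta_reduce
    rw [Finset.sum_eq_single l, if_pos hl]
    · intro l' _ hl'
      rw [if_neg fun h3 => hl' (hs3 φ hφ l' l h3 hl)]
    · intro h3
      exact absurd (Finset.mem_univ l) h3
  refine ⟨wt, ?_, ?_⟩
  · intro φ hφ hφc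
    obtain ⟨l, hl⟩ := hs2 φ hφ
    rw [hwt1 _ hφc _ (hs4 _ hφc l hl), hwt1 _ hφ _ hl, hw]
  · intro z hwz n φ t y hφ hne
    have ht0 : ∀ i, t i ≠ 0 := by
      intro i hi
      apply hne
      rw [tau_eq_zero hi, zero_mul, map_zero]
    refine ⟨?_, fun i => ⟨t i, ht0 i, hφ i⟩⟩
    choose l hl using fun s' => hs2 (φ s') ⟨t s', ht0 s', hφ s'⟩
    have h3 : ∑ s', wt (φ s') = ∑ s', w (l s') :=
      Finset.sum_congr rfl fun s' _ => hwt1 _ ⟨t s', ht0 s', hφ s'⟩ _ (hl s')
    rw [h3]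
    by_contra hcon
    apply hne
    exact base_component (W := W) (L := L) (α := W.cl _ z) (Y := Y) l
      (fun l x hx => Mot.hom_deg0 (hp.mem l) hx) hp.idem
      (fun t' ht' y' => by
        by_contra h5
        exact hcon (hwz _ l t' ht' y' h5))
      t (fun s' => (hφ s').1) (fun s' => by
        rw [hs1 _ _ _ (hφ s'), hl]
        exact one_smul L (show L ⊗[W.K] W.H A from t s')) y

/-- The characters of negative weight. -/
def NegChar (W : WeilCohomology.{u, v} ops) (act : O → (A ⟶ A))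
    (wt : (O →+* algebraicClosure ℚ W.K) → ℝ) (χ : O →* W.K) : Prop :=
  ∃ (n : ℕ) (φ : Fin n → (O →+* algebraicClosure ℚ W.K)),
    (∀ a, χ a = ∏ s, (φ s a : W.K)) ∧ (∀ s, HasEig W act (φ s)) ∧ ∑ s, wt (φ s) < 0

/-- The coefficients of the translates. -/
theorem exists_coeff [IsReduced O] [Algebra.IsIntegral ℤ O] [IsAlgClosed W.K]
    (hA : IsAbelianLike W A m) (hact : IsRingAction W act) {j : ℕ} {z : (A.prod Y).Cycles}
    (hz : (A.prod Y).IsCyc j z) (wt : (O →+* algebraicClosure ℚ W.K) → ℝ)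
    (hwt : ∀ (n : ℕ) (φ : Fin n → (O →+* algebraicClosure ℚ W.K))
          (t : Fin n → W.H A) (y : W.H Y), (∀ i, IsEig W act (φ i) (t i)) →
          W.tr _ (tau W t y * W.cl _ z) ≠ 0 → ∑ i, wt (φ i) < 0 ∧ ∀ i, HasEig W act (φ i))
    (f : W.H (A.prod Y) →ₗ[W.K] W.K) :
    ∃ g : (O →* W.K) →₀ W.K, (∀ χ ∈ g.support, NegChar W act wt χ) ∧
      f (W.cl _ z) = (g.sum fun _ x => x) ∧
      ∀ a, f (W.cl _ (ops.push (timesId (act a) Y) z)) = g.sum fun χ x => χ a * x := by
  classical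
  obtain ⟨N, n, φ, t, y, e, hφ, h1, h2⟩ := exists_decomp (Y := Y) hA hact hz f
  set χ : Fin N → (O →* W.K) := fun i => ∏ s,
    ((algebraMap (algebraicClosure ℚ W.K) W.K : algebraicClosure ℚ W.K →+* W.K).comp (φ i s) :
      O →* W.K) with hχ
  have hχa : ∀ i a, χ i a = ∏ s, (φ i s a : W.K) := by
    intro i a
    rw [hχ]
    beta_reduce
    rw [MonoidHom.finsetProd_apply]
    rfl
  set h : Fin N → W.K := fun i => e i * W.tr _ (tau W (t i) (y i) * W.cl _ z) with hh
  set g : (O →* W.K) →₀ W.K := ∑ i, Finsupp.single (χ i) (h i) with hg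
  have hgsum : ∀ (r : (O →* W.K) → W.K), (g.sum fun χ x => r χ * x) = ∑ i, r (χ i) * h i := by
    intro r
    rw [hg, ← Finsupp.sum_finsetSum_index (by simp) (by intro χ x y; rw [mul_add])]
    refine Finset.sum_congr rfl fun i _ => ?_
    rw [Finsupp.sum_single_index (mul_zero _)]
  refine ⟨g, ?_, ?_, ?_⟩
  · intro ψ hψ
    have hψ' := Finsupp.mem_support_iff.1 hψ
    rw [hg, Finsupp.finsetSum_apply] at hψ'
    obtain ⟨i, -, hi⟩ := Finset.exists_ne_zero_of_sum_ne_zero hψ'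
    rw [Finsupp.single_apply_ne_zero] at hi
    have h3 : W.tr _ (tau W (t i) (y i) * W.cl _ z) ≠ 0 := by
      intro h0
      apply hi.2
      rw [hh]
      beta_reduce
      rw [h0, mul_zero]
    obtain ⟨h4, h5⟩ := hwt _ (φ i) (t i) (y i) (hφ i) h3
    refine ⟨n i, φ i, fun a => ?_, h5, h4⟩
    rw [hi.1, hχa]
  · rw [h1]
    have h3 := hgsum fun _ => 1
    simp only [one_mul] at h3
    rw [h3]
  · intro a
    rw [h2, hgsum fun χ => χ a]
    refine Finset.sum_congr rfl fun i _ => ?_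
    rw [hχa]
    congr 1
    exact map_prod (algebraMap (algebraicClosure ℚ W.K) W.K) _ _

/-- A character of negative weight is not conjugate to such a character. -/
theorem negChar_conj (hc : IsComplexConjugation c) [CharZero W.K]
    {wt : (O →+* algebraicClosure ℚ W.K) → ℝ}
    (hwt : ∀ φ, HasEig W act φ → HasEig W act (φ.comp c) → wt (φ.comp c) = -wt φ)
    (ι : algebraicClosure ℚ W.K →+* ℂ) (σ : W.K ≃+* W.K)
    (hσ : ∀ x : algebraicClosure ℚ W.K, ∃ y : algebraicClosure ℚ W.K,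
      σ x = y ∧ ι y = starRingEnd ℂ (ι x)) (χ χ' : O →* W.K) (hχ : NegChar W act wt χ)
    (hχ' : NegChar W act wt χ') (h : ∀ a, χ' a = σ (χ a)) : False := by
  obtain ⟨n, φ, h1, h2, h3⟩ := hχ
  obtain ⟨n', φ', h1', h2', h3'⟩ := hχ'
  have hconj : ∀ (φ : O →+* algebraicClosure ℚ W.K) (a : O), σ (φ a : W.K) = (φ (c a) : W.K) := by
    intro φ a
    obtain ⟨y, hy1, hy2⟩ := hσ (φ a)
    have h4 : ι (φ (c a)) = starRingEnd ℂ (ι (φ a)) := hc (ι.comp φ) a
    rw [hy1]
    congr 1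
    exact ι.injective (by rw [hy2, h4])
  have h4 : ∀ a, ∏ s, φ' s a = ∏ s, ((φ s).comp c) a := by
    intro a
    apply (algebraMap (algebraicClosure ℚ W.K) W.K).injective
    rw [map_prod, map_prod]
    have h5 := h a
    rw [h1, h1', map_prod] at h5
    have h6 : ∀ s, σ (φ s a : W.K) = algebraMap (algebraicClosure ℚ W.K) W.K (((φ s).comp c) a) :=
      fun s => hconj (φ s) a
    rw [Finset.prod_congr rfl fun s _ => h6 s] at h5
    exact h5
  have h5 := sum_eq_of_prod φ' (fun s => (φ s).comp c) h4 wt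
  have h6 := sum_eq_of_prod (fun s => (φ s).comp c) φ' (fun a => (h4 a).symm) wt
  have h7 : ∀ s, wt ((φ s).comp c) = -wt (φ s) := by
    intro s
    obtain ⟨s', hs'⟩ := h6.2 s
    apply hwt _ (h2 s)
    have h9 : (φ s).comp c = φ' s' := hs'
    rw [h9]
    exact h2' s'
  rw [h5.1] at h3'
  simp only [h7, Finset.sum_neg_distrib] at h3'
  linarith

end Pool.Agent.E8helper40.GD
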