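import Pool.Agent.E8helper40.GD.Char

/-!
# Doubling of the rank
-/

open Module

namespace Pool.Agent.E8helper40.GD

/-- Complex conjugation of algebraic numbers extends to an automorphism of an algebraically closed
field. -/
lemma exists_conjAut_aux {Q : Type*} [Field Q] [CharZero Q] [IsAlgClosed Q]
    [Algebra.IsAlgebraic ℚ Q] {L : Type*} [Field L] [IsAlgClosed L] [Algebra Q L]
    (ι : Q →+* ℂ) :
    ∃ σ : L ≃+* L, ∀ x : Q, ∃ y : Q,
      σ (algebraMap Q L x) = algebraMap Q L y ∧ ι y = starRingEnd ℂ (ι x) := by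
  classical
  have h1 : ∀ x : Q, ∃ y : Q, ι y = starRingEnd ℂ (ι x) := by
    intro x
    have hx : IsIntegral ℚ x := Algebra.IsIntegral.isIntegral x
    have hsplit : ((minpoly ℚ x).map (algebraMap ℚ Q)).Splits := IsAlgClosed.splits _
    have hroot : (minpoly ℚ x).eval₂ (algebraMap ℚ ℂ) (starRingEnd ℂ (ι x)) = 0 := by
      have h2 : (algebraMap ℚ ℂ) = ((starRingEnd ℂ).comp ι).comp (algebraMap ℚ Q) :=
        RingHom.ext_rat _ _
      rw [h2, ← RingHom.comp_apply, ← Polynomial.hom_eval₂]
      have h3 : (minpoly ℚ x).eval₂ (algebraMap ℚ Q) x = 0 := minpoly.aeval ℚ x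
      rw [h3, map_zero]
    have h3 : ((minpoly ℚ x).map (algebraMap ℚ Q)).map ι ≠ 0 := by
      rw [Polynomial.map_ne_zero_iff ι.injective,
        Polynomial.map_ne_zero_iff (algebraMap ℚ Q).injective]
      exact minpoly.ne_zero hx
    have h4 : starRingEnd ℂ (ι x) ∈ (((minpoly ℚ x).map (algebraMap ℚ Q)).map ι).roots := by
      rw [Polynomial.mem_roots h3, Polynomial.IsRoot, Polynomial.eval_map, Polynomial.eval₂_map]
      have h5 : ι.comp (algebraMap ℚ Q) = algebraMap ℚ ℂ := RingHom.ext_rat _ _
      rw [h5]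
      exact hroot
    rw [hsplit.roots_map, Multiset.mem_map] at h4
    obtain ⟨y, -, hy⟩ := h4
    exact ⟨y, hy⟩
  choose κ hκ using h1
  have hκκ : ∀ x, κ (κ x) = x := by
    intro x
    apply ι.injective
    rw [hκ, hκ, Complex.conj_conj]
  set K : Q ≃+* Q :=
    { toFun := κ
      invFun := κ
      left_inv := hκκ
      right_inv := hκκ
      map_mul' := fun x y => ι.injective (by rw [hκ, map_mul, map_mul, map_mul, hκ, hκ])
      map_add' := fun x y => ι.injective (by rw [hκ, map_add, map_add, map_add, hκ, hκ]) } with hK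
  obtain ⟨s, hs⟩ := exists_isTranscendenceBasis Q L
  have hcl := IsAlgClosed.isAlgClosure_of_transcendence_basis (Subtype.val : s → L) hs
  set e : Algebra.adjoin Q (Set.range (Subtype.val : s → L)) ≃+*
      Algebra.adjoin Q (Set.range (Subtype.val : s → L)) :=
    hs.1.aevalEquiv.symm.toRingEquiv.trans
      ((MvPolynomial.mapEquiv s K).trans hs.1.aevalEquiv.toRingEquiv) with he
  have heK : ∀ x : Q, e (algebraMap Q _ x) = algebraMap Q _ (κ x) := by
    intro x
    have h2 : hs.1.aevalEquiv.symm (algebraMap Q _ x) = MvPolynomial.C x := by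
      rw [AlgEquiv.commutes]
      rfl
    have h3 : e (algebraMap Q _ x) = hs.1.aevalEquiv (MvPolynomial.mapEquiv s K
      (hs.1.aevalEquiv.symm (algebraMap Q _ x))) := rfl
    rw [h3, h2, MvPolynomial.mapEquiv_apply, MvPolynomial.map_C]
    exact hs.1.aevalEquiv.commutes (κ x)
  refine ⟨IsAlgClosure.equivOfEquiv L L e, fun x => ⟨κ x, ?_, hκ x⟩⟩
  have h2 := IsAlgClosure.equivOfEquiv_algebraMap L L e (algebraMap Q _ x)
  rw [heK] at h2
  exact h2

/-- Complex conjugation of algebraic numbers extends to an automorphism of an algebraically closed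
field. -/
theorem exists_conjAut {L : Type*} [Field L] [CharZero L] [IsAlgClosed L]
    (ι : algebraicClosure ℚ L →+* ℂ) :
    ∃ σ : L ≃+* L, ∀ x : algebraicClosure ℚ L, ∃ y : algebraicClosure ℚ L,
      σ x = y ∧ ι y = starRingEnd ℂ (ι x) := by
  have hclosed : IsAlgClosed (algebraicClosure ℚ L) :=
    (algebraicClosure.isAlgClosure ℚ L).isAlgClosed
  have halg : Algebra.IsAlgebraic ℚ (algebraicClosure ℚ L) := by
    have h1 := algebraicClosure.isAlgebraic ℚ L
    have h2 : (DivisionRing.toRatAlgebra : Algebra ℚ (algebraicClosure ℚ L)) =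
        (algebraicClosure ℚ L).algebra' := Subsingleton.elim _ _
    rw [h2]
    exact h1
  exact exists_conjAut_aux ι

/-- **Doubling of the rank.** -/
theorem rank_double {O : Type*} [CommRing O] {L : Type*} [Field L] [CharZero L] {H : Type*}
    [AddCommGroup H] [Module L H] [FiniteDimensional L H] {I : Type*} (σ : L ≃+* L)
    (Neg : (O →* L) → Prop)
    (hneg : ∀ χ χ' : O →* L, Neg χ → Neg χ' → (∀ a, χ' a = σ (χ a)) → False) (v : I → H)
    (t : O → I → I)
    (hf : ∀ (f : H →ₗ[L] L) (z : I), ∃ g : (O →* L) →₀ L, (∀ χ ∈ g.support, Neg χ) ∧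
      f (v z) = (g.sum fun _ x => x) ∧ ∀ a, f (v (t a z)) = g.sum fun χ x => χ a * x)
    {r : ℕ} (x : Fin r → I) (hx : LinearIndependent L fun i => v (x i)) :
    ∃ z : Fin (2 * r) → I, ∀ q : Fin (2 * r) → ℚ, ∑ i, (q i : L) • v (z i) = 0 →
      ∀ i, q i = 0 := by
  classical
  set b := finBasis L H with hb
  set n := finrank L H with hn
  set cσ : H → (Fin n → L) := fun y i => σ (b.repr y i) with hcσ
  set c₀ : H →ₗ[L] (Fin n → L) := b.equivFun.toLinearMap with hc₀
  have hc₀i : ∀ y i, c₀ y i = b.repr y i := fun y i => rfl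
  set u : I → (Fin n → L) × (Fin n → L) := fun z => (c₀ (v z), cσ (v z)) with hu
  set W : Submodule L ((Fin n → L) × (Fin n → L)) := Submodule.span L (Set.range u) with hW
  have hli : LinearIndependent L (fun χ : O →* L => (χ : O → L)) := linearIndependent_monoidHom O L
  -- the two summands are in the span
  have key : ∀ lam : (Fin n → L) × (Fin n → L) →ₗ[L] L, W ≤ LinearMap.ker lam → ∀ z,
      lam (c₀ (v z), 0) = 0 ∧ lam (0, cσ (v z)) = 0 := by
    intro lam hlam z
    set f1 : H →ₗ[L] L := lam ∘ₗ LinearMap.inl L _ _ ∘ₗ c₀ with hf1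
    set f2 : H →ₗ[L] L :=
      { toFun := fun y => σ.symm (lam (0, cσ y))
        map_add' := fun y y' => by
          have h1 : cσ (y + y') = cσ y + cσ y' := by
            funext i
            simp [hcσ]
          have h2 : ((0, cσ y + cσ y') : (Fin n → L) × (Fin n → L)) = (0, cσ y) + (0, cσ y') := by
            rw [Prod.mk_add_mk, add_zero]
          rw [h1, h2, map_add, map_add]
        map_smul' := fun a y => by
          have h1 : cσ (a • y) = σ a • cσ y := by
            funext i
            simp [hcσ]
          have h2 : ((0, σ a • cσ y) : (Fin n → L) × (Fin n → L)) = σ a • (0, cσ y) := by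
            rw [Prod.smul_mk, smul_zero]
          rw [h1, h2, map_smul, smul_eq_mul, map_mul, RingEquiv.symm_apply_apply,
            RingHom.id_apply, smul_eq_mul] } with hf2
    have hf2σ : ∀ y, σ (f2 y) = lam (0, cσ y) := fun y => σ.apply_symm_apply _
    have hsum : ∀ z, f1 (v z) + σ (f2 (v z)) = 0 := by
      intro z
      have h1 : lam (u z) = 0 := hlam (Submodule.subset_span ⟨z, rfl⟩)
      have h2 : u z = (c₀ (v z), 0) + (0, cσ (v z)) := by
        rw [Prod.mk_add_mk, add_zero, zero_add]
      rw [h2, map_add] at h1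
      rw [hf2σ]
      exact h1
    obtain ⟨g1, hg1, hg1z, hg1a⟩ := hf f1 z
    obtain ⟨g2, hg2, hg2z, hg2a⟩ := hf f2 z
    set E : (O →* L) → (O →* L) := fun χ => ((σ : L →+* L) : L →* L).comp χ with hE
    have hEinj : Function.Injective E := by
      intro χ χ' h
      refine MonoidHom.ext fun a => σ.injective ?_
      exact DFunLike.congr_fun h a
    set g2' : (O →* L) →₀ L := (g2.mapRange σ (map_zero σ)).mapDomain E with hg2'
    have hg2'E : ∀ χ, g2' (E χ) = σ (g2 χ) := by
      intro χ
      rw [hg2', Finsupp.mapDomain_apply hEinj, Finsupp.mapRange_apply]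
    have hG : g1 + g2' = 0 := by
      apply hli
      rw [map_zero, map_add]
      funext a
      have h1 : Finsupp.linearCombination L (fun χ : O →* L => (χ : O → L)) g1 a =
          f1 (v (t a z)) := by
        rw [hg1a, Finsupp.linearCombination_apply, Finsupp.sum, Finset.sum_apply]
        exact Finset.sum_congr rfl fun χ _ => mul_comm _ _
      have h2 : Finsupp.linearCombination L (fun χ : O →* L => (χ : O → L)) g2' a =
          σ (f2 (v (t a z))) := by
        rw [hg2a, hg2', Finsupp.linearCombination_mapDomain, Finsupp.linearCombination_apply,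
          Finsupp.sum_mapRange_index (by intro; rw [zero_smul]), Finsupp.sum, Finset.sum_apply,
          Finsupp.sum, map_sum]
        refine Finset.sum_congr rfl fun χ _ => ?_
        rw [map_mul, mul_comm (σ (χ a))]
        rfl
      rw [Pi.add_apply, Pi.zero_apply, h1, h2, hsum]
    have h10 : g1 = 0 := by
      ext χ
      rw [Finsupp.zero_apply]
      by_contra hne
      have h1 := DFunLike.congr_fun hG χ
      rw [Finsupp.add_apply, Finsupp.zero_apply] at h1
      have h2 : g2' χ ≠ 0 := by
        intro h0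
        rw [h0, add_zero] at h1
        exact hne h1
      by_cases hex : ∃ χ', E χ' = χ
      · obtain ⟨χ', rfl⟩ := hex
        rw [hg2'E] at h2
        have h3 : g2 χ' ≠ 0 := by
          intro h0
          rw [h0, map_zero] at h2
          exact h2 rfl
        exact hneg χ' (E χ') (hg2 _ (Finsupp.mem_support_iff.2 h3))
          (hg1 _ (Finsupp.mem_support_iff.2 hne)) fun a => rfl
      · exact h2 (Finsupp.mapDomain_of_notMem_range _ _ hex)
    have h20 : g2 = 0 := by
      ext χ
      rw [h10, zero_add] at hG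
      have h1 := DFunLike.congr_fun hG (E χ)
      rw [hg2'E, Finsupp.zero_apply] at h1
      rw [Finsupp.zero_apply]
      exact (map_eq_zero_iff σ σ.injective).1 h1
    constructor
    · have h1 : f1 (v z) = 0 := by rw [hg1z, h10, Finsupp.sum_zero_index]
      exact h1
    · rw [← hf2σ, hg2z, h20, Finsupp.sum_zero_index, map_zero]
  have hmem : ∀ z, ((c₀ (v z), 0) : (Fin n → L) × (Fin n → L)) ∈ W ∧
      ((0, cσ (v z)) : (Fin n → L) × (Fin n → L)) ∈ W := by
    intro z
    constructor
    · by_contra hcon
      obtain ⟨lam, hne, hle⟩ := Submodule.exists_le_ker_of_notMem hcon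
      exact hne (key lam hle z).1
    · by_contra hcon
      obtain ⟨lam, hne, hle⟩ := Submodule.exists_le_ker_of_notMem hcon
      exact hne (key lam hle z).2
  -- the rank of the span
  have hcx : LinearIndependent L fun i => c₀ (v (x i)) :=
    hx.map' c₀ (LinearMap.ker_eq_bot.2 b.equivFun.injective)
  have hσx : LinearIndependent L fun i => cσ (v (x i)) := by
    rw [Fintype.linearIndependent_iff]
    intro q hq
    have h1 : ∑ i, σ.symm (q i) • c₀ (v (x i)) = 0 := by
      funext l
      apply σ.injective
      have h2 := congrFun hq l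
      rw [Finset.sum_apply, Pi.zero_apply] at h2
      rw [Finset.sum_apply, Pi.zero_apply, map_zero, map_sum, ← h2]
      refine Finset.sum_congr rfl fun i _ => ?_
      rw [Pi.smul_apply, smul_eq_mul, map_mul, RingEquiv.apply_symm_apply]
      rfl
    intro i
    have h2 := Fintype.linearIndependent_iff.1 hcx _ h1 i
    exact (map_eq_zero_iff σ.symm σ.symm.injective).1 h2
  have hdim : 2 * r ≤ finrank L W := by
    have h1 : LinearIndependent L (Sum.elim (fun i : Fin r => (⟨(c₀ (v (x i)), 0), (hmem _).1⟩ : W))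
        (fun i : Fin r => (⟨(0, cσ (v (x i))), (hmem _).2⟩ : W))) := by
      rw [Fintype.linearIndependent_iff]
      intro q hq
      rw [Fintype.sum_sum_type] at hq
      simp only [Sum.elim_inl, Sum.elim_inr] at hq
      have h2 := congrArg Subtype.val hq
      rw [Submodule.coe_add, AddSubmonoidClass.coe_finsetSum, AddSubmonoidClass.coe_finsetSum,
        ZeroMemClass.coe_zero] at h2
      have h3 := congrArg Prod.fst h2
      have h4 := congrArg Prod.snd h2
      rw [Prod.fst_add, Prod.fst_sum, Prod.fst_sum, Prod.fst_zero] at h3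
      rw [Prod.snd_add, Prod.snd_sum, Prod.snd_sum, Prod.snd_zero] at h4
      simp only [Submodule.coe_smul, Prod.smul_fst, Prod.smul_snd, smul_zero,
        Finset.sum_const_zero, add_zero, zero_add] at h3 h4
      rintro (i | i)
      · exact Fintype.linearIndependent_iff.1 hcx _ h3 i
      · exact Fintype.linearIndependent_iff.1 hσx _ h4 i
    have h2 := h1.fintype_card_le_finrank
    rwa [Fintype.card_sum, Fintype.card_fin, ← two_mul] at h2
  obtain ⟨B, hB, hBs, hBl⟩ := exists_linearIndependent L (Set.range u)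
  have hfin : B.Finite := hBl.setFinite
  have := hfin.fintype
  have hcard : 2 * r ≤ Fintype.card B := by
    have h1 := finrank_span_eq_card hBl
    rw [Subtype.range_coe, hBs] at h1
    rw [← h1]
    exact hdim
  choose g hg using fun y : B => hB y.2
  set e : Fin (2 * r) ↪ B := (Fin.castLEEmb hcard).trans (Fintype.equivFin B).symm.toEmbedding
    with he
  refine ⟨fun i => g (e i), fun q hq i => ?_⟩
  have h1 : LinearIndependent L fun i => (e i : (Fin n → L) × (Fin n → L)) :=
    hBl.comp e e.injective
  have h2 : ∑ i, (q i : L) • (e i : (Fin n → L) × (Fin n → L)) = 0 := by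
    have h3 : ∀ i, (e i : (Fin n → L) × (Fin n → L)) = u (g (e i)) := fun i => (hg (e i)).symm
    simp only [h3]
    have h4 : c₀ (∑ i, (q i : L) • v (g (e i))) = 0 := by rw [hq, map_zero]
    rw [map_sum] at h4
    simp only [map_smul] at h4
    refine Prod.ext ?_ ?_
    · rw [Prod.fst_sum, Prod.fst_zero, ← h4]
      exact Finset.sum_congr rfl fun i _ => rfl
    · rw [Prod.snd_sum, Prod.snd_zero]
      funext l
      have h5 := congrArg σ (congrFun h4 l)
      rw [Finset.sum_apply, Pi.zero_apply, map_zero, map_sum] at h5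
      rw [Finset.sum_apply, Pi.zero_apply, ← h5]
      refine Finset.sum_congr rfl fun i _ => ?_
      rw [Prod.smul_snd, Pi.smul_apply, Pi.smul_apply, smul_eq_mul, smul_eq_mul, map_mul,
        map_ratCast]
      rfl
  have h3 := Fintype.linearIndependent_iff.1 h1 _ h2 i
  exact_mod_cast h3

end Pool.Agent.E8helper40.GD
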