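import Pool.Agent.E8helper40.GD.Rank

/-!
# The rank of the space of the classes of numerically trivial cycles: the main theorem
-/

open CategoryTheory AlgebraicGeometry TensorProduct Function

universe u v

namespace Pool.Agent.E8helper40.GD

open Pool.Agent.H914 Pool.Agent.H914.VarClass Pool.Agent.H914.VarClass.Obj
  Pool.Agent.H914.WeilCohomology Pool.Agent.R908 Pool.Agent.H447

/-- Linear independence is stable under extension of the coefficients. -/
lemma independent_base {K : Type*} [Field K] {M : Type*} [AddCommGroup M] [Module K M]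
    (L : Type*) [Field L] [Algebra K L] {r : ℕ} {x : Fin r → M}
    (h : ∀ q : Fin r → K, ∑ i, q i • x i = 0 → ∀ i, q i = 0) :
    LinearIndependent L fun i => (1 : L) ⊗ₜ[K] x i := by
  have hinj : LinearMap.ker (Fintype.linearCombination K x) = ⊥ := by
    rw [LinearMap.ker_eq_bot']
    intro q hq
    funext i
    exact h q hq i
  obtain ⟨g, hg⟩ := LinearMap.exists_leftInverse_of_injective (Fintype.linearCombination K x) hinj
  have hgx : ∀ i, g (x i) = Pi.single i 1 := by
    intro i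
    have h1 := congrArg (fun f => f (Pi.single i (1 : K))) hg
    beta_reduce at h1
    rw [LinearMap.comp_apply, Fintype.linearCombination_apply_single, one_smul] at h1
    exact h1
  rw [Fintype.linearIndependent_iff]
  intro q hq i
  set F : L ⊗[K] M →ₗ[L] L := ((Algebra.linearMap K L) ∘ₗ LinearMap.proj i ∘ₗ g).liftBaseChange L
    with hF
  have h1 := congrArg F hq
  rw [map_sum, map_zero, Finset.sum_eq_single i] at h1
  · rw [map_smul, hF, LinearMap.liftBaseChange_tmul, LinearMap.comp_apply, LinearMap.comp_apply,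
      hgx, LinearMap.proj_apply, Pi.single_eq_same, Algebra.linearMap_apply, map_one, smul_eq_mul,
      one_smul, mul_one] at h1
    exact h1
  · intro l _ hl
    rw [map_smul, hF, LinearMap.liftBaseChange_tmul, LinearMap.comp_apply, LinearMap.comp_apply,
      hgx, LinearMap.proj_apply, Pi.single_eq_of_ne hl.symm, Algebra.linearMap_apply, map_zero,
      smul_zero, smul_zero]
  · intro h2
    exact absurd (Finset.mem_univ i) h2

variable {k : Type u} [Field k] {𝒱 : VarClass k} {ops : CycleOps 𝒱}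

lemma isNumTrivial_of {W : WeilCohomology.{u, v} ops} {V : 𝒱.Obj} {j : ℕ} (hj : j ≤ V.dim)
    {z : V.Cycles} (hz : V.IsCyc j z) (h : NumTriv W V (W.cl V z)) : IsNumTrivial ops V j z := by
  refine ⟨hj, hz, fun w hw => ?_⟩
  have h3 := h _ _ (cl_mem_span hw)
  rw [← deg_eq hj hz hw] at h3
  exact_mod_cast h3

variable {W : WeilCohomology.{u, v} ops} {A : 𝒱.Obj} {m : A.prod A ⟶ A} {D : A.Cycles}
  {𝒢 : Set (Symmetry W)} {Λ : Type} [Fintype Λ] {bar : Λ → Λ}
  {p : Λ → Module.End W.K (W.H A)} {O : Type} [CommRing O] {act : O → (A ⟶ A)} {c : O →+* O}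

/-- **The space of the classes of numerically trivial cycles has at least twice the dimension of
its span.** -/
theorem rank_cycles [IsReduced O] [Algebra.IsIntegral ℤ O] {𝒴 : Set 𝒱.Obj}
    (hA : IsAbelianType 𝒢 A m D) (hp : IsBlockSystemOne 𝒢 A D bar p)
    (hc : IsComplexConjugation c) (hact : IsCentralAction W D p c act)
    (h𝒴 : ∀ Y ∈ 𝒴, ∀ Z ∈ 𝒴, Y.prod Z ∈ 𝒴) (hY : ∀ Z ∈ 𝒴, ∀ j ≤ Z.dim, HomEqNumIn W Z j)
    {Y : 𝒱.Obj} (hYY : Y ∈ 𝒴) {V : 𝒱.Obj} {j : ℕ} (hV : IsFactorIn W V (A.prod Y) j)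
    {r : ℕ} (z : Fin r → V.Cycles) (hz : ∀ i, IsNumTrivial ops V j (z i))
    (hli : ∀ q : Fin r → W.K, ∑ i, q i • W.cl V (z i) = 0 → ∀ i, q i = 0) :
    ∃ z' : Fin (2 * r) → V.Cycles, (∀ i, IsNumTrivial ops V j (z' i)) ∧
      ∀ q : Fin (2 * r) → ℚ, ∑ i, (q i : W.K) • W.cl V (z' i) = 0 → ∀ i, q i = 0 := by
  classical
  rcases Nat.eq_zero_or_pos r with rfl | hr
  · exact ⟨fun i => i.elim0, fun i => i.elim0, fun q _ i => i.elim0⟩
  have hjV : j ≤ V.dim := (hz ⟨0, hr⟩).1
  obtain ⟨i, e1, e2, a, b, ha, hb, h1, h2, hab⟩ := hV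
  have hi : i ≤ (A.prod Y).dim := by
    by_contra hi
    have h0 : ∀ x, V.IsCyc j x → W.cl V x = 0 := by
      intro x hx
      have h3 : W.cl (A.prod Y) (corrCyc ops a x) = 0 := by
        have h4 := W.cl_mem (corr_mem (ops := ops) ha hx h1)
        rw [W.gr_eq_bot _ _ (by omega)] at h4
        exact (Submodule.mem_bot _).1 h4
      rw [← hab x hx, ← corr_cl b, h3, map_zero]
    have h3 := hli (fun _ => 1) (by
      refine Finset.sum_eq_zero fun l _ => ?_
      rw [h0 _ (hz l).2.1, smul_zero]) ⟨0, hr⟩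
    exact one_ne_zero h3
  obtain ⟨w, hw, hwc⟩ := weights_cycles (𝒴 := 𝒴) hA hp
    fun Z hZ => hY Z (IsProductOf.mem h𝒴 hZ)
  set L := AlgebraicClosure W.K with hL
  have : IsAlgClosed (baseW W L).K := (inferInstance : IsAlgClosed L)
  obtain ⟨ι⟩ := exists_emb (baseW W L).K
  obtain ⟨σ, hσ⟩ := exists_conjAut (ι : algebraicClosure ℚ (baseW W L).K →+* ℂ)
  have hcc : ∀ (φ : O →+* (algebraicClosure ℚ (baseW W L).K)) (a : O), φ (c (c a)) = φ a := by
    intro φ a
    have h3 : IsProdHom (φ : O →* (algebraicClosure ℚ (baseW W L).K)) :=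
      ⟨{φ}, fun a => by rw [Multiset.map_singleton, Multiset.prod_singleton]; rfl⟩
    exact hc.twice (ι : (algebraicClosure ℚ (baseW W L).K) →+* ℂ) h3 a
  obtain ⟨wt, hwt1, hwt2⟩ := exists_wt (Y := Y) (L := L) hA hp hact.cAction hcc w hw
  -- the translates
  have hnum : ∀ x : V.Cycles, IsNumTrivial ops V j x →
      IsNumTrivial ops (A.prod Y) i (corrCyc ops a x) := by
    intro x hx
    refine isNumTrivial_of (W := W) hi (corr_mem ha hx.2.1 h1) ?_
    rw [← corr_cl a x]
    refine NumTriv.op (δ := (i : ℤ) - j) (KOp.gen (p := e1) ?_ ha)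
      (numTriv_cl hx.1 hx.2.1 hx.2.2)
    omega
  have hnum' : ∀ (x : (A.prod Y).Cycles) (l : O), IsNumTrivial ops (A.prod Y) i x →
      IsNumTrivial ops V j (corrCyc ops b (ops.push (timesId (act l) Y) x)) := by
    intro x l hx
    refine isNumTrivial_of (W := W) hjV (corr_mem hb (ops.push_mem _ hx.2.1 rfl) h2) ?_
    rw [← corr_cl b, W.cl_push]
    refine NumTriv.op (δ := (j : ℤ) - i) (KOp.gen (p := e2) ?_ hb)
      (NumTriv.op (KOp.pushHom _) (numTriv_cl hx.1 hx.2.1 hx.2.2))
    omega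
  have hmain := rank_double (O := O) (L := (baseW W L).K) (H := (baseW W L).H V)
    (I := {x : V.Cycles // IsNumTrivial ops V j x}) σ (NegChar (baseW W L) act wt)
    (negChar_conj (W := baseW W L) hc hwt1 (ι : algebraicClosure ℚ (baseW W L).K →+* ℂ) σ hσ)
    (fun x => (baseW W L).cl V x.1)
    (fun l x => ⟨_, hnum' _ l (hnum x.1 x.2)⟩) (by
      intro f x
      obtain ⟨g, hg1, hg2, hg3⟩ := exists_coeff (W := baseW W L) (Y := Y)
        (isAbelianLike_base hA.abelianLike) (hact.cAction.toIsRingAction.base (L := L))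
        (hnum x.1 x.2).2.1 wt
        (hwt2 _ fun n l t ht y hne =>
          ((hwc Y (IsProductOf.base hYY) i _ (hnum x.1 x.2)).1 n l t ht y hne).1)
        (f ∘ₗ (baseW W L).corr ((baseW W L).cl _ b))
      refine ⟨g, hg1, ?_, ?_⟩
      · rw [← hg2, LinearMap.comp_apply, corr_cl (W := baseW W L) b]
        congr 1
        have h3 := hab x.1 x.2.2.1
        exact congrArg (fun y => (1 : L) ⊗ₜ[W.K] y) h3.symm
      · intro l
        rw [← hg3, LinearMap.comp_apply, corr_cl (W := baseW W L) b])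
    (r := r) (fun l => ⟨z l, hz l⟩) (independent_base L hli)
  obtain ⟨z', hz'⟩ := hmain
  refine ⟨fun l => (z' l).1, fun l => (z' l).2, fun q hq => hz' q ?_⟩
  have h3 := congrArg (fun y => (1 : L) ⊗ₜ[W.K] y) hq
  beta_reduce at h3
  rw [TensorProduct.tmul_sum, TensorProduct.tmul_zero] at h3
  refine (Finset.sum_congr rfl fun l _ => ?_).trans h3
  rw [TensorProduct.tmul_smul, ← algebraMap_smul L ((q l : ℚ) : W.K), map_ratCast]
  rfl

end Pool.Agent.E8helper40.GD
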